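import Pool.Agent.Helper52.Eden.DP

set_option autoImplicit false

namespace Pool.Agent.Helper52.Eden

set_option maxRecDepth 1000000 in
theorem k30 : run (10 ^ 9) (2 * (30 - 1)) 120 40 15 600 400 = 182512677 := by decide +kernel

end Pool.Agent.Helper52.Eden
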