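import Pool.Agent.Helper52.Eden.Final
import Pool.Agent.Helper52.Eden.K28
import Pool.Agent.Helper52.Eden.K29
import Pool.Agent.Helper52.Eden.K30
import Pool.Agent.Helper52.Eden.K31
import Pool.Agent.Helper52.Eden.K32
import Pool.Agent.Helper52.Eden.K33
import Pool.Agent.Helper52.Eden.K34

set_option autoImplicit false
open MeasureTheory ProbabilityTheory Filter Topology
open scoped ENNReal

namespace Pool.Agent.Helper52.Eden

theorem case28 {Ω : Type} [MeasurableSpace Ω] (P : Measure Ω) [IsProbabilityMeasure P]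
    (X : Sym2 (Fin 28 → ℤ) → Ω → ℝ) (hX : iIndepFun X P)
    (hm : ∀ e, Measurable (X e) ∧ P.map (X e) = expMeasure 1)
    (K : Set (EuclideanSpace ℝ (Fin 28))) (hK : IsLimitShape P X K) (r : ℝ) (hr : 0 < r) :
    K ≠ Metric.closedBall 0 r := by
  refine not_ball (d := 28) (by norm_num) (10 ^ 9) 200 50 20 600 400 189085226 k28 (by norm_num) (by norm_num)
    (by norm_num) (by norm_num) (by norm_num) (by norm_num) (by norm_num) (by norm_num)
    (by norm_num) (by norm_num) (2 * 28 * 1.81066 - 1) (1 / 10000) (5291502 / 10 ^ 6) (by norm_num)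
    ?_ (by norm_num) (by norm_num) (by norm_num) ?_ ?_ P X hX hm K hK r hr
  · push_cast; norm_num
  · push_cast; norm_num
  · push_cast; norm_num

theorem case29 {Ω : Type} [MeasurableSpace Ω] (P : Measure Ω) [IsProbabilityMeasure P]
    (X : Sym2 (Fin 29 → ℤ) → Ω → ℝ) (hX : iIndepFun X P)
    (hm : ∀ e, Measurable (X e) ∧ P.map (X e) = expMeasure 1)
    (K : Set (EuclideanSpace ℝ (Fin 29))) (hK : IsLimitShape P X K) (r : ℝ) (hr : 0 < r) :
    K ≠ Metric.closedBall 0 r := by
  refine not_ball (d := 29) (by norm_num) (10 ^ 9) 150 40 15 600 400 186042667 k29 (by norm_num) (by norm_num)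
    (by norm_num) (by norm_num) (by norm_num) (by norm_num) (by norm_num) (by norm_num)
    (by norm_num) (by norm_num) (2 * 29 * 1.81066 - 1) (1 / 10000) (5385164 / 10 ^ 6) (by norm_num)
    ?_ (by norm_num) (by norm_num) (by norm_num) ?_ ?_ P X hX hm K hK r hr
  · push_cast; norm_num
  · push_cast; norm_num
  · push_cast; norm_num

theorem case30 {Ω : Type} [MeasurableSpace Ω] (P : Measure Ω) [IsProbabilityMeasure P]
    (X : Sym2 (Fin 30 → ℤ) → Ω → ℝ) (hX : iIndepFun X P)
    (hm : ∀ e, Measurable (X e) ∧ P.map (X e) = expMeasure 1)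
    (K : Set (EuclideanSpace ℝ (Fin 30))) (hK : IsLimitShape P X K) (r : ℝ) (hr : 0 < r) :
    K ≠ Metric.closedBall 0 r := by
  refine not_ball (d := 30) (by norm_num) (10 ^ 9) 120 40 15 600 400 182512677 k30 (by norm_num) (by norm_num)
    (by norm_num) (by norm_num) (by norm_num) (by norm_num) (by norm_num) (by norm_num)
    (by norm_num) (by norm_num) (2 * 30 * 1.81066 - 1) (1 / 10000) (5477225 / 10 ^ 6) (by norm_num)
    ?_ (by norm_num) (by norm_num) (by norm_num) ?_ ?_ P X hX hm K hK r hr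
  · push_cast; norm_num
  · push_cast; norm_num
  · push_cast; norm_num

theorem case31 {Ω : Type} [MeasurableSpace Ω] (P : Measure Ω) [IsProbabilityMeasure P]
    (X : Sym2 (Fin 31 → ℤ) → Ω → ℝ) (hX : iIndepFun X P)
    (hm : ∀ e, Measurable (X e) ∧ P.map (X e) = expMeasure 1)
    (K : Set (EuclideanSpace ℝ (Fin 31))) (hK : IsLimitShape P X K) (r : ℝ) (hr : 0 < r) :
    K ≠ Metric.closedBall 0 r := by
  refine not_ball (d := 31) (by norm_num) (10 ^ 9) 120 30 12 400 300 178839301 k31 (by norm_num) (by norm_num)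
    (by norm_num) (by norm_num) (by norm_num) (by norm_num) (by norm_num) (by norm_num)
    (by norm_num) (by norm_num) (2 * 31 * 1.81066 - 1) (1 / 10000) (5567764 / 10 ^ 6) (by norm_num)
    ?_ (by norm_num) (by norm_num) (by norm_num) ?_ ?_ P X hX hm K hK r hr
  · push_cast; norm_num
  · push_cast; norm_num
  · push_cast; norm_num

theorem case32 {Ω : Type} [MeasurableSpace Ω] (P : Measure Ω) [IsProbabilityMeasure P]
    (X : Sym2 (Fin 32 → ℤ) → Ω → ℝ) (hX : iIndepFun X P)
    (hm : ∀ e, Measurable (X e) ∧ P.map (X e) = expMeasure 1)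
    (K : Set (EuclideanSpace ℝ (Fin 32))) (hK : IsLimitShape P X K) (r : ℝ) (hr : 0 < r) :
    K ≠ Metric.closedBall 0 r := by
  refine not_ball (d := 32) (by norm_num) (10 ^ 9) 100 30 12 400 300 175805244 k32 (by norm_num) (by norm_num)
    (by norm_num) (by norm_num) (by norm_num) (by norm_num) (by norm_num) (by norm_num)
    (by norm_num) (by norm_num) (2 * 32 * 1.81066 - 1) (1 / 10000) (5656854 / 10 ^ 6) (by norm_num)
    ?_ (by norm_num) (by norm_num) (by norm_num) ?_ ?_ P X hX hm K hK r hr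
  · push_cast; norm_num
  · push_cast; norm_num
  · push_cast; norm_num

theorem case33 {Ω : Type} [MeasurableSpace Ω] (P : Measure Ω) [IsProbabilityMeasure P]
    (X : Sym2 (Fin 33 → ℤ) → Ω → ℝ) (hX : iIndepFun X P)
    (hm : ∀ e, Measurable (X e) ∧ P.map (X e) = expMeasure 1)
    (K : Set (EuclideanSpace ℝ (Fin 33))) (hK : IsLimitShape P X K) (r : ℝ) (hr : 0 < r) :
    K ≠ Metric.closedBall 0 r := by
  refine not_ball (d := 33) (by norm_num) (10 ^ 9) 80 30 12 400 300 173605032 k33 (by norm_num) (by norm_num)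
    (by norm_num) (by norm_num) (by norm_num) (by norm_num) (by norm_num) (by norm_num)
    (by norm_num) (by norm_num) (2 * 33 * 1.81066 - 1) (1 / 10000) (5744562 / 10 ^ 6) (by norm_num)
    ?_ (by norm_num) (by norm_num) (by norm_num) ?_ ?_ P X hX hm K hK r hr
  · push_cast; norm_num
  · push_cast; norm_num
  · push_cast; norm_num

theorem case34 {Ω : Type} [MeasurableSpace Ω] (P : Measure Ω) [IsProbabilityMeasure P]
    (X : Sym2 (Fin 34 → ℤ) → Ω → ℝ) (hX : iIndepFun X P)
    (hm : ∀ e, Measurable (X e) ∧ P.map (X e) = expMeasure 1)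
    (K : Set (EuclideanSpace ℝ (Fin 34))) (hK : IsLimitShape P X K) (r : ℝ) (hr : 0 < r) :
    K ≠ Metric.closedBall 0 r := by
  refine not_ball (d := 34) (by norm_num) (10 ^ 9) 80 25 10 400 300 170386350 k34 (by norm_num) (by norm_num)
    (by norm_num) (by norm_num) (by norm_num) (by norm_num) (by norm_num) (by norm_num)
    (by norm_num) (by norm_num) (2 * 34 * 1.81066 - 1) (1 / 10000) (5830951 / 10 ^ 6) (by norm_num)
    ?_ (by norm_num) (by norm_num) (by norm_num) ?_ ?_ P X hX hm K hK r hr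
  · push_cast; norm_num
  · push_cast; norm_num
  · push_cast; norm_num

end Pool.Agent.Helper52.Eden
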