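import Mathlib

set_option autoImplicit false

namespace Pool.Agent.Helper52.Eden

/-- number of binary digits one, as a kernel friendly function -/
def pop : ℕ → ℕ → ℕ
  | 0, _ => 0
  | k + 1, n => n % 2 + pop k (n / 2)

/-- list `[h n, ..., h 0]` with `h k = D k - 2 (pop 0 + ... + pop (k-1))`, and the running sum -/
def hl (D : ℕ) : ℕ → List ℕ × ℕ
  | 0 => ([0], 0)
  | n + 1 =>
    match hl D n with
    | (l, f) => ((D * (n + 1) - 2 * (f + pop 12 n)) :: l, f + pop 12 n)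

def row (SC b r0 r1 : ℕ) : ℕ → List ℕ → List ℕ → List ℕ → ℕ → List ℕ
  | 0, _, _, _, _ => []
  | _ + 1, [], _, _, _ => []
  | _ + 1, _ :: _, [], _, _ => []
  | _ + 1, _ :: _, _ :: _, [], _ => []
  | n + 1, h :: H, u :: U, v :: V, w =>
    let x := (SC + r0 * u + r1 * v + (h + (b - n)) * w) / (r0 + r1 + (h + (b - n)) + n) + 1
    x :: row SC b r0 r1 n H U V x

def plane (SC c2 a r0 : ℕ) (H : List ℕ) (w : ℕ) :
    ℕ → List ℕ → List (List ℕ) → List ℕ → List (List ℕ)
  | 0, _, _, _ => []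
  | _ + 1, [], _, _ => []
  | _ + 1, _ :: _, [], _ => []
  | n + 1, h :: HB, U :: US, V =>
    let R := row SC n r0 (h + (a - n)) c2 H U V w
    R :: plane SC c2 a r0 H w n HB US R

/-- planes for a = n, n-1, ..., 1 ; HA = [h n, h (n-1), ...] -/
def loopA (SC c1 c2 : ℕ) (H HB : List ℕ) (w : ℕ) (V : List ℕ) :
    ℕ → List ℕ → List (List ℕ) → List (List ℕ)
  | 0, _, P => P
  | _ + 1, [], P => P
  | n + 1, h :: HA, P => loopA SC c1 c2 H HB w V n HA (plane SC c2 (n + 1) h H w c1 HB P V)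

/-- one dimensional tail: values for e = n, n-1, ..., stopping after k steps -/
def loopE (SC : ℕ) : ℕ → ℕ → List ℕ → ℕ → ℕ
  | 0, _, _, w => w
  | _ + 1, _, [], w => w
  | k + 1, e, h :: H, w => loopE SC k (e - 1) H ((SC + h * w) / (h + e) + 1)

/-- two dimensional tail: rows for b = n, n-1, ... (k steps) -/
def loopB (SC c2 : ℕ) (H : List ℕ) (w : ℕ) : ℕ → ℕ → List ℕ → List ℕ → List ℕ
  | 0, _, _, V => V
  | _ + 1, _, [], V => V
  | k + 1, b, h :: HB, V => loopB SC c2 H w k (b - 1) HB (row SC b 0 h c2 H V V w)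

def run (SC D c0 c1 c2 b1 b2 : ℕ) : ℕ :=
  let HE := (hl D b2).1
  -- loop from e = b2-1 down to c2
  let w := loopE SC (b2 - c2) (b2 - 1) (HE.drop 1) (SC / b2 + 1)
  let H := HE.drop (b2 - c2 + 1)      -- [h (c2-1), ..., h 0]
  let HBB := (hl D b1).1
  let z := List.replicate c2 0
  let V0 := row SC b1 0 0 c2 H z z w
  let V := loopB SC c2 H w (b1 - c1) (b1 - 1) (HBB.drop 1) V0
  let HB := HBB.drop (b1 - c1 + 1)
  let HAA := (hl D c0).1
  let P0 := plane SC c2 c0 0 H w c1 HB (List.replicate c1 z) V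
  let P := loopA SC c1 c2 H HB w V (c0 - 1) (HAA.drop 1) P0
  (P.getD (c1 - 1) []).getD (c2 - 1) 0

end Pool.Agent.Helper52.Eden
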