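import Pool.Agent.Helper52.Eden.Main
import Pool.Agent.Helper52.Eden.DP

set_option autoImplicit false

namespace Pool.Agent.Helper52.Eden

/-- lower bound for the boundary -/
def hh (D k : ℕ) : ℕ := D * k - 2 * FF k

/-- `l = [x_{n-1}, ..., x_0, ...]` with `Q i x_i` -/
def Al {α : Type*} (Q : ℕ → α → Prop) : ℕ → List α → Prop
  | 0, _ => True
  | _ + 1, [] => False
  | n + 1, x :: l => Q n x ∧ Al Q n l

def GrowRule (h : ℕ → ℕ) (SC : ℕ) (Q : ℕ → ℕ → ℕ → ℕ → Prop) : Prop :=
  ∀ a b e r0 r1 r2 g0 g1 g2 g, (r0 = 0 ∨ (r0 ≤ h a ∧ Q (a + 1) b e g0)) →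
    (r1 = 0 ∨ (r1 ≤ h b + (a - b) ∧ Q a (b + 1) e g1)) →
    (r2 = 0 ∨ (r2 ≤ h e + (b - e) ∧ Q a b (e + 1) g2)) → 0 < r0 + r1 + r2 + e →
    SC + r0 * g0 + r1 * g1 + r2 * g2 ≤ (r0 + r1 + r2 + e) * g → Q a b e g

def DropRule (Q : ℕ → ℕ → ℕ → ℕ → Prop) : Prop :=
  ∀ a b e a' b' e' g, a' ≤ a → b' ≤ b → e' ≤ e → Q a' b' e' g → Q a b e g


/-! ### dpAl -/

section

theorem Al_mono {α : Type*} {Q Q' : ℕ → α → Prop} (h : ∀ i x, Q i x → Q' i x) :
    ∀ (n : ℕ) (l : List α), Al Q n l → Al Q' n l := by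
  intro n
  induction n with
  | zero => intro l _; trivial
  | succ n ih =>
    intro l hl
    cases l with
    | nil => exact hl
    | cons x l => exact ⟨h _ _ hl.1, ih l hl.2⟩


theorem Al_drop {α : Type*} {Q : ℕ → α → Prop} (n k : ℕ) (l : List α) (h : Al Q (n + k) l) :
    Al Q n (l.drop k) := by
  induction k generalizing l with
  | zero => simpa using h
  | succ k ih =>
    cases l with
    | nil => exact absurd h (by simp [← Nat.add_assoc, Al])
    | cons x l =>
      have h' : Al Q (n + k + 1) (x :: l) := h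
      rw [List.drop_succ_cons]
      exact ih l h'.2


theorem Al_succ {Q : ℕ → ℕ → Prop} (n : ℕ) (l : List ℕ) (h : Al Q (n + 1) l) :
    Al (fun i x => Q (i + 1) x) n l := by
  induction n generalizing l with
  | zero => trivial
  | succ n ih =>
    cases l with
    | nil => exact h
    | cons x l => exact ⟨h.1, ih l h.2⟩


theorem Al_replicate {α : Type*} {Q : ℕ → α → Prop} (x : α) (h : ∀ i, Q i x) (n : ℕ) :
    Al Q n (List.replicate n x) := by
  induction n with
  | zero => trivial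
  | succ n ih =>
    rw [List.replicate_succ]
    exact ⟨h n, ih⟩


theorem Al_getD {α : Type*} {Q : ℕ → α → Prop} (n : ℕ) (l : List α) (d : α) (h : Al Q (n + 1) l) :
    Q 0 (l.getD n d) := by
  induction n generalizing l with
  | zero =>
    cases l with
    | nil => exact absurd h (by simp [Al])
    | cons x l => simpa using h.1
  | succ n ih =>
    cases l with
    | nil => exact absurd h (by simp [Al])
    | cons x l =>
      rw [List.getD_cons_succ]
      exact ih l h.2



end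

/-! ### dpHl -/

section

theorem dpHl_pc_step (n : ℕ) : pc n = n % 2 + pc (n / 2) := by
  unfold pc
  rcases Nat.eq_zero_or_pos n with rfl | hn
  · simp
  · rw [Nat.digits_def' (by norm_num) hn, List.sum_cons]

theorem dpHl_pop (k : ℕ) : ∀ n, n < 2 ^ k → pop k n = pc n := by
  induction k with
  | zero =>
    intro n hn
    have : n = 0 := by simpa using hn
    subst this
    simp [pop, pc]
  | succ k ih =>
    intro n hn
    rw [pop, dpHl_pc_step n, ih (n / 2) (by rw [pow_succ] at hn; omega)]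

theorem hl_spec (D n : ℕ) (hn : n ≤ 4096) :
    Al (fun i x => x = hh D i) (n + 1) (hl D n).1 ∧ (hl D n).2 = FF n := by
  induction n with
  | zero =>
    refine ⟨⟨?_, trivial⟩, ?_⟩
    · simp [hh]
    · simp [hl, FF]
  | succ n ih =>
    obtain ⟨h1, h2⟩ := ih (by omega)
    have hp : pop 12 n = pc n := dpHl_pop 12 n (by norm_num; omega)
    have hF : FF (n + 1) = FF n + pc n := by unfold FF; rw [Finset.sum_range_succ]
    have e1 : (hl D (n + 1)).1 = (D * (n + 1) - 2 * ((hl D n).2 + pop 12 n)) :: (hl D n).1 := rfl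
    have e2 : (hl D (n + 1)).2 = (hl D n).2 + pop 12 n := rfl
    refine ⟨?_, ?_⟩
    · rw [e1]
      refine ⟨?_, h1⟩
      rw [h2, hp]
      show D * (n + 1) - 2 * (FF n + pc n) = hh D (n + 1)
      unfold hh
      rw [hF]
    · rw [e2, h2, hp, hF]



end

/-! ### dpRow -/

section

theorem row_spec (h : ℕ → ℕ) (SC : ℕ) (Q : ℕ → ℕ → ℕ → ℕ → Prop) (hG : GrowRule h SC Q)
    (a b r0 r1 n : ℕ) (H U V : List ℕ) (w : ℕ) (hH : Al (fun i x => x = h i) n H)
    (hU : Al (fun i x => r0 = 0 ∨ (r0 ≤ h a ∧ Q (a + 1) b i x)) n U)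
    (hV : Al (fun i x => r1 = 0 ∨ (r1 ≤ h b + (a - b) ∧ Q a (b + 1) i x)) n V)
    (hw : Q a b n w) (hpos : 0 < b ∨ 0 < r1) :
    Al (Q a b) n (row SC b r0 r1 n H U V w) := by
  induction n generalizing H U V w with
  | zero => exact trivial
  | succ n ih =>
    match H, U, V, hH, hU, hV with
    | [], _, _, hH, _, _ => exact absurd hH id
    | _ :: _, [], _, _, hU, _ => exact absurd hU id
    | _ :: _, _ :: _, [], _, _, hV => exact absurd hV id
    | h' :: H, u :: U, v :: V, hH, hU, hV =>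
      obtain ⟨hh, hH⟩ := hH
      obtain ⟨hu, hU⟩ := hU
      obtain ⟨hv, hV⟩ := hV
      subst hh
      have hN : 0 < r0 + r1 + (h n + (b - n)) + n := by omega
      have hx : Q a b n ((SC + r0 * u + r1 * v + (h n + (b - n)) * w) /
          (r0 + r1 + (h n + (b - n)) + n) + 1) :=
        hG a b n r0 r1 (h n + (b - n)) u v w _ hu hv (Or.inr ⟨le_rfl, hw⟩) hN
          (Nat.lt_mul_div_succ _ hN).le
      exact ⟨hx, ih H U V _ hH hU hV hx⟩



end

/-! ### dpPlane -/

section

theorem plane_spec (h : ℕ → ℕ) (SC : ℕ) (Q : ℕ → ℕ → ℕ → ℕ → Prop) (hG : GrowRule h SC Q)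
    (c2 a r0 : ℕ) (ha : 0 < a) (H : List ℕ) (w n : ℕ) (HB : List ℕ) (US : List (List ℕ))
    (V : List ℕ) (hH : Al (fun i x => x = h i) c2 H) (hHB : Al (fun i x => x = h i) n HB)
    (hUS : Al (fun b U => Al (fun i x => r0 = 0 ∨ (r0 ≤ h a ∧ Q (a + 1) b i x)) c2 U) n US)
    (hV : Al (Q a n) c2 V) (hw : ∀ b, Q a b c2 w) :
    Al (fun b U => Al (Q a b) c2 U) n (plane SC c2 a r0 H w n HB US V) := by
  induction n generalizing HB US V with
  | zero => exact trivial
  | succ n ih =>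
    cases HB with
    | nil => exact hHB.elim
    | cons x HB =>
      cases US with
      | nil => exact hUS.elim
      | cons U US =>
        obtain ⟨hx, hHB'⟩ := hHB
        obtain ⟨hU, hUS'⟩ := hUS
        have hR : Al (Q a n) c2 (row SC n r0 (x + (a - n)) c2 H U V w) := by
          apply row_spec h SC Q hG a n r0 (x + (a - n)) c2 H U V w hH hU _ (hw n) _
          · refine Al_mono ?_ c2 V hV
            intro i y hy
            right
            refine ⟨?_, hy⟩
            rw [hx]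
          · rcases Nat.eq_zero_or_pos n with h0 | h0
            · right
              omega
            · left
              exact h0
        exact ⟨hR, ih HB US _ hHB' hUS' hR⟩


end

/-! ### dpLoopA -/

section

theorem loopA_spec (h : ℕ → ℕ) (SC : ℕ) (Q : ℕ → ℕ → ℕ → ℕ → Prop) (hG : GrowRule h SC Q)
    (c1 c2 : ℕ) (H HB : List ℕ) (w : ℕ) (V : List ℕ) (n : ℕ) (HA : List ℕ) (P : List (List ℕ))
    (hH : Al (fun i x => x = h i) c2 H) (hHB : Al (fun i x => x = h i) c1 HB)
    (hHA : Al (fun i x => x = h (i + 1)) n HA)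
    (hP : Al (fun b U => Al (Q (n + 1) b) c2 U) c1 P)
    (hV : ∀ a, Al (Q a c1) c2 V) (hw : ∀ a b, Q a b c2 w) :
    Al (fun b U => Al (Q 1 b) c2 U) c1 (loopA SC c1 c2 H HB w V n HA P) := by
  induction n generalizing HA P with
  | zero =>
    unfold loopA
    exact hP
  | succ n ih =>
    cases HA with
    | nil => exact absurd hHA (by unfold Al; exact not_false)
    | cons x HA' =>
      have hHA' : x = h (n + 1) ∧ Al (fun i x => x = h (i + 1)) n HA' := hHA
      change Al (fun b U => Al (Q 1 b) c2 U) c1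
        (loopA SC c1 c2 H HB w V n HA' (plane SC c2 (n + 1) x H w c1 HB P V))
      refine ih HA' _ hHA'.2 ?_
      refine plane_spec h SC Q hG c2 (n + 1) x (Nat.succ_pos n) H w c1 HB P V hH hHB ?_
        (hV (n + 1)) (hw (n + 1))
      refine Al_mono (fun b U hU => ?_) c1 P hP
      refine Al_mono (fun i y hy => ?_) c2 U hU
      exact Or.inr ⟨hHA'.1.le, hy⟩


end

/-! ### dpLoopE -/

section

theorem loopE_spec (h : ℕ → ℕ) (SC : ℕ) (Q : ℕ → ℕ → ℕ → ℕ → Prop) (hG : GrowRule h SC Q)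
    (k e : ℕ) (HL : List ℕ) (w : ℕ) (hk : k ≤ e) (hHL : Al (fun i x => x = h i) (e + 1) HL)
    (hw : Q 0 0 (e + 1) w) : Q 0 0 (e + 1 - k) (loopE SC k e HL w) := by
  induction k generalizing e HL w with
  | zero => simpa [loopE] using hw
  | succ k ih =>
    obtain ⟨e', rfl⟩ : ∃ e', e = e' + 1 := ⟨e - 1, by omega⟩
    cases HL with
    | nil => exact absurd hHL (by simp [Al])
    | cons x H =>
      have hx : x = h (e' + 1) := hHL.1
      have hH : Al (fun i x => x = h i) (e' + 1) H := hHL.2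
      have hw' : Q 0 0 (e' + 1) ((SC + x * w) / (x + (e' + 1)) + 1) := by
        have hlt := Nat.lt_mul_div_succ (SC + x * w) (show 0 < x + (e' + 1) by omega)
        refine hG 0 0 (e' + 1) 0 0 x 0 0 w _ (Or.inl rfl) (Or.inl rfl)
          (Or.inr ⟨by rw [hx]; omega, hw⟩) (by omega) ?_
        have e1 : 0 + 0 + x + (e' + 1) = x + (e' + 1) := by omega
        rw [e1]
        have e2 : SC + 0 * 0 + 0 * 0 + x * w = SC + x * w := by omega
        rw [e2]
        exact hlt.le
      have := ih e' H _ (by omega) hH hw'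
      have e3 : e' + 1 + 1 - (k + 1) = e' + 1 - k := by omega
      rw [e3]
      exact this


end

/-! ### dpLoopB -/

section

theorem loopB_spec (h : ℕ → ℕ) (SC : ℕ) (Q : ℕ → ℕ → ℕ → ℕ → Prop) (hG : GrowRule h SC Q)
    (c2 : ℕ) (H : List ℕ) (w k b : ℕ) (HBL V : List ℕ) (hk : k ≤ b)
    (hH : Al (fun i x => x = h i) c2 H) (hHBL : Al (fun i x => x = h i) (b + 1) HBL)
    (hV : Al (Q 0 (b + 1)) c2 V) (hw : ∀ b, Q 0 b c2 w) :
    Al (Q 0 (b + 1 - k)) c2 (loopB SC c2 H w k b HBL V) := by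
  induction k generalizing b HBL V with
  | zero =>
    simpa [loopB] using hV
  | succ k ih =>
    obtain ⟨b', rfl⟩ : ∃ b', b = b' + 1 := ⟨b - 1, by omega⟩
    cases HBL with
    | nil => exact absurd hHBL (by simp [Al])
    | cons x HB =>
      obtain ⟨hx, hHB⟩ : x = h (b' + 1) ∧ Al (fun i x => x = h i) (b' + 1) HB := hHBL
      subst hx
      have hrow : Al (Q 0 (b' + 1)) c2 (row SC (b' + 1) 0 (h (b' + 1)) c2 H V V w) := by
        apply row_spec h SC Q hG 0 (b' + 1) 0 (h (b' + 1)) c2 H V V w hH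
        · exact Al_mono (fun i x _ => Or.inl rfl) c2 V hV
        · exact Al_mono (fun i x hx => Or.inr ⟨by omega, hx⟩) c2 V hV
        · exact hw (b' + 1)
        · left; omega
      have key := ih b' HB (row SC (b' + 1) 0 (h (b' + 1)) c2 H V V w) (by omega) hHB hrow
      have e1 : b' + 1 + 1 - (k + 1) = b' + 1 - k := by omega
      rw [e1]
      show Al (Q 0 (b' + 1 - k)) c2
        (loopB SC c2 H w k (b' + 1 - 1) HB (row SC (b' + 1) 0 (h (b' + 1)) c2 H V V w))
      rw [Nat.add_sub_cancel]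
      exact key


end

/-! ### dpRun -/

section
theorem run_spec (SC D c0 c1 c2 b1 b2 : ℕ) (h0 : 0 < c0) (h0' : c0 ≤ 4096) (h1 : 0 < c1)
    (h1' : c1 < b1) (h1'' : b1 ≤ 4096) (h2 : 0 < c2) (h2' : c2 < b2) (h2'' : b2 ≤ 4096)
    (Q : ℕ → ℕ → ℕ → ℕ → Prop) (hG : GrowRule (hh D) SC Q) (hD : DropRule Q) :
    Q 1 0 0 (run SC D c0 c1 c2 b1 b2) := by
  have hE := (hl_spec D b2 h2'').1
  have hB := (hl_spec D b1 h1'').1
  have hA := (hl_spec D c0 h0').1
  -- w0
  have hw0 : Q 0 0 b2 (SC / b2 + 1) := by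
    refine hG 0 0 b2 0 0 0 0 0 0 _ (Or.inl rfl) (Or.inl rfl) (Or.inl rfl) (by omega) ?_
    simp only [zero_mul, add_zero, zero_add]
    have := Nat.div_add_mod SC b2
    have h3 := Nat.mod_lt SC (show b2 > 0 by omega)
    rw [mul_add, mul_one]; omega
  have hw : Q 0 0 c2 (loopE SC (b2 - c2) (b2 - 1) ((hl D b2).1.drop 1) (SC / b2 + 1)) := by
    have h3 := loopE_spec (hh D) SC Q hG (b2 - c2) (b2 - 1) ((hl D b2).1.drop 1) (SC / b2 + 1)
      (by omega) (by
        have : b2 - 1 + 1 = b2 := by omega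
        rw [this]
        exact Al_drop b2 1 _ hE) (by
        have : b2 - 1 + 1 = b2 := by omega
        rw [this]; exact hw0)
    have h4 : b2 - 1 + 1 - (b2 - c2) = c2 := by omega
    rw [h4] at h3
    exact h3
  set w := loopE SC (b2 - c2) (b2 - 1) ((hl D b2).1.drop 1) (SC / b2 + 1) with hwdef
  have hwall : ∀ a b, Q a b c2 w := fun a b =>
    hD a b c2 0 0 c2 w (Nat.zero_le _) (Nat.zero_le _) le_rfl hw
  set H := (hl D b2).1.drop (b2 - c2 + 1) with hHdef
  have hH : Al (fun i x => x = hh D i) c2 H := by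
    refine Al_drop c2 (b2 - c2 + 1) _ ?_
    have : c2 + (b2 - c2 + 1) = b2 + 1 := by omega
    rw [this]; exact hE
  have hz : ∀ (r : Prop) (a b : ℕ), Al (fun i x => (0:ℕ) = 0 ∨ r ∧ Q a b i x) c2
      (List.replicate c2 0) := fun r a b =>
    Al_mono (Q := fun _ _ => True) (fun i x _ => Or.inl rfl) c2 _
      (Al_replicate 0 (fun _ => trivial) c2)
  have hV0 : Al (Q 0 b1) c2 (row SC b1 0 0 c2 H (List.replicate c2 0) (List.replicate c2 0) w) :=
    row_spec (hh D) SC Q hG 0 b1 0 0 c2 H _ _ w hH (hz _ _ _) (hz _ _ _) (hwall 0 b1)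
      (Or.inl (by omega))
  set V0 := row SC b1 0 0 c2 H (List.replicate c2 0) (List.replicate c2 0) w with hV0def
  have hV : Al (Q 0 c1) c2 (loopB SC c2 H w (b1 - c1) (b1 - 1) ((hl D b1).1.drop 1) V0) := by
    have h3 := loopB_spec (hh D) SC Q hG c2 H w (b1 - c1) (b1 - 1) ((hl D b1).1.drop 1) V0
      (by omega) hH (by
        have : b1 - 1 + 1 = b1 := by omega
        rw [this]
        exact Al_drop b1 1 _ hB) (by
        have : b1 - 1 + 1 = b1 := by omega
        rw [this]; exact hV0) (hwall 0)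
    have h4 : b1 - 1 + 1 - (b1 - c1) = c1 := by omega
    rw [h4] at h3
    exact h3
  set V := loopB SC c2 H w (b1 - c1) (b1 - 1) ((hl D b1).1.drop 1) V0 with hVdef
  have hVall : ∀ a, Al (Q a c1) c2 V := fun a =>
    Al_mono (fun i x hx => hD a c1 i 0 c1 i x (Nat.zero_le _) le_rfl le_rfl hx) c2 V hV
  set HB := (hl D b1).1.drop (b1 - c1 + 1) with hHBdef
  have hHB : Al (fun i x => x = hh D i) c1 HB := by
    refine Al_drop c1 (b1 - c1 + 1) _ ?_
    have : c1 + (b1 - c1 + 1) = b1 + 1 := by omega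
    rw [this]; exact hB
  have hP0 : Al (fun b U => Al (Q c0 b) c2 U) c1
      (plane SC c2 c0 0 H w c1 HB (List.replicate c1 (List.replicate c2 0)) V) := by
    refine plane_spec (hh D) SC Q hG c2 c0 0 h0 H w c1 HB _ V hH hHB ?_ (hVall c0) (hwall c0)
    exact Al_replicate _ (fun b => hz _ _ _) c1
  set P0 := plane SC c2 c0 0 H w c1 HB (List.replicate c1 (List.replicate c2 0)) V with hP0def
  have hHA : Al (fun i x => x = hh D (i + 1)) (c0 - 1) ((hl D c0).1.drop 1) := by
    have h3 : Al (fun i x => x = hh D i) (c0 - 1 + 1) ((hl D c0).1.drop 1) := by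
      refine Al_drop (c0 - 1 + 1) 1 _ ?_
      have : c0 - 1 + 1 + 1 = c0 + 1 := by omega
      rw [this]; exact hA
    exact Al_succ (c0 - 1) _ h3
  have hP : Al (fun b U => Al (Q 1 b) c2 U) c1
      (loopA SC c1 c2 H HB w V (c0 - 1) ((hl D c0).1.drop 1) P0) := by
    refine loopA_spec (hh D) SC Q hG c1 c2 H HB w V (c0 - 1) _ P0 hH hHB hHA ?_ hVall hwall
    have : c0 - 1 + 1 = c0 := by omega
    rw [this]; exact hP0
  have hc1 : c1 - 1 + 1 = c1 := by omega
  have hc2 : c2 - 1 + 1 = c2 := by omega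
  have hfin1 : Al (Q 1 0) c2 ((loopA SC c1 c2 H HB w V (c0 - 1) ((hl D c0).1.drop 1) P0).getD
      (c1 - 1) []) := by
    rw [← hc1] at hP
    have := Al_getD (c1 - 1) _ [] hP
    rwa [hc1] at this
  have hfin : Q 1 0 0 (((loopA SC c1 c2 H HB w V (c0 - 1) ((hl D c0).1.drop 1) P0).getD
      (c1 - 1) []).getD (c2 - 1) 0) := by
    have h5 : Al (Q 1 0) (c2 - 1 + 1) ((loopA SC c1 c2 H HB w V (c0 - 1) ((hl D c0).1.drop 1) P0).getD
      (c1 - 1) []) := by rw [hc2]; exact hfin1
    exact Al_getD (c2 - 1) _ 0 h5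
  exact hfin

end

end Pool.Agent.Helper52.Eden
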