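import Pool.Agent.Helper52.Eden.Main
import Pool.Agent.Helper52.Eden.DPSpec

set_option autoImplicit false
open MeasureTheory ProbabilityTheory Filter Topology
open scoped ENNReal

namespace Pool.Agent.Helper52.Eden

theorem not_ball_core {d : ℕ} (hd : 0 < d) (i0 : Fin d)
    (μ : Measure (Sym2 (Fin d → ℤ) → ℝ)) [IsProbabilityMeasure μ] (h : Res μ)
    (SC g : ℕ) (hSC : 0 < SC) (hg : 0 < g)
    (hBd : ∀ (A : Set (Fin d → ℤ)) (L : ℤ) (κ : ℝ≥0∞),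
      (∀ y : Fin d → ℤ, y i0 = L + 3 → ∫⁻ x, TT (lattice d) {y} A x ∂μ ≤ κ) →
      Bd μ A i0 L κ SC 1 0 0 g)
    (θ lam ε : ℝ) (hθ : 0 < θ) (hlam : 0 < lam) (hq : 2 * d * Real.cosh θ < 1 + lam)
    (hε : 0 < ε) (hε1 : ε < 1)
    (hnum : lam * ((1 + ε) ^ 2 * ((g : ℝ) / SC)) < 3 * θ * Real.sqrt d * (1 - ε))
    (r : ℝ) (hr : 0 < r)
    (hT : Tendsto (fun t : ℝ =>
      μ (shapeEvent (Metric.closedBall (0 : EuclideanSpace ℝ (Fin d)) r) ε t)) atTop (𝓝 1)) :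
    False := by
  have h1 := diag_final hd μ h θ lam hθ hlam hq r ε hr hε hε1 hT
  have hb : 0 < (g : ℝ) / SC := div_pos (by exact_mod_cast hg) (by exact_mod_cast hSC)
  have h2 := axis_final μ h i0 ((g : ℝ) / SC) hb (fun k => stage μ i0 SC g hSC hBd k) r ε hr hε hT
  have h3 : 3 * θ * Real.sqrt d * (1 - ε) * r ≤ lam * ((1 + ε) ^ 2 * ((g : ℝ) / SC)) * r := by
    calc 3 * θ * Real.sqrt d * (1 - ε) * r = 3 * (θ * Real.sqrt d * ((1 - ε) * r)) := by ring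
      _ ≤ 3 * lam := by linarith
      _ ≤ ((1 + ε) * ((g : ℝ) / SC) * ((1 + ε) * r)) * lam :=
          mul_le_mul_of_nonneg_right h2 hlam.le
      _ = lam * ((1 + ε) ^ 2 * ((g : ℝ) / SC)) * r := by ring
  have h4 := mul_lt_mul_of_pos_right hnum hr
  linarith

theorem Bd_run {d : ℕ} (i0 : Fin d)
    (μ : Measure (Sym2 (Fin d → ℤ) → ℝ)) [IsProbabilityMeasure μ] (h : Res μ)
    (SC c0 c1 c2 b1 b2 : ℕ) (hSC : 0 < SC) (h0 : 0 < c0) (h0' : c0 ≤ 4096) (h1 : 0 < c1)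
    (h1' : c1 < b1) (h1'' : b1 ≤ 4096) (h2 : 0 < c2) (h2' : c2 < b2) (h2'' : b2 ≤ 4096)
    (A : Set (Fin d → ℤ)) (L : ℤ) (κ : ℝ≥0∞)
    (hκ : ∀ y : Fin d → ℤ, y i0 = L + 3 → ∫⁻ x, TT (lattice d) {y} A x ∂μ ≤ κ) :
    Bd μ A i0 L κ SC 1 0 0 (run SC (2 * (d - 1)) c0 c1 c2 b1 b2) := by
  refine run_spec SC (2 * (d - 1)) c0 c1 c2 b1 b2 h0 h0' h1 h1' h1'' h2 h2' h2''
    (fun a b e g => Bd μ A i0 L κ SC a b e g) ?_ ?_
  · intro a b e r0 r1 r2 g0 g1 g2 g e0 e1 e2 hp hgg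
    exact Bd_grow μ h A i0 L κ hκ SC hSC a b e r0 r1 r2 g0 g1 g2 g e0 e1 e2 hp hgg
  · intro a b e a' b' e' g ha hb he hB
    exact Bd_drop μ A i0 L κ SC a b e a' b' e' g ha hb he hB

theorem cosh_bound : Real.cosh (6 / 5) < 1.81066 := by
  have h1 : Real.exp (6 / 5) < 3.320118 := by
    have e5 : Real.exp (6 / 5) ^ 5 = Real.exp 1 ^ 6 := by
      rw [← Real.exp_nat_mul, ← Real.exp_nat_mul]; norm_num
    have e1 : Real.exp 1 ^ 6 < 3.320118 ^ 5 := by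
      calc Real.exp 1 ^ 6 ≤ 2.7182818286 ^ 6 :=
            pow_le_pow_left₀ (Real.exp_pos 1).le Real.exp_one_lt_d9.le 6
        _ < 3.320118 ^ 5 := by norm_num
    rw [← e5] at e1
    exact lt_of_pow_lt_pow_left₀ 5 (by norm_num) e1
  have h2 : Real.exp (-(6 / 5)) < 0.301196 := by
    have e5 : Real.exp (6 / 5) ^ 5 = Real.exp 1 ^ 6 := by
      rw [← Real.exp_nat_mul, ← Real.exp_nat_mul]; norm_num
    have e1 : (2.7182818283 : ℝ) ^ 6 ≤ Real.exp (6 / 5) ^ 5 := by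
      rw [e5]
      exact pow_le_pow_left₀ (by norm_num) Real.exp_one_gt_d9.le 6
    have e2 : (1 / 0.301196 : ℝ) ^ 5 < 2.7182818283 ^ 6 := by norm_num
    have e3 : (1 / 0.301196 : ℝ) < Real.exp (6 / 5) :=
      lt_of_pow_lt_pow_left₀ 5 (Real.exp_pos _).le (e2.trans_le e1)
    rw [Real.exp_neg]
    rw [inv_lt_comm₀ (Real.exp_pos _) (by norm_num)]
    rw [one_div] at e3
    exact e3
  rw [Real.cosh_eq]
  linarith

open scoped Pointwise in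
/-- the limit shape property of the problem -/
def IsLimitShape {d : ℕ} {Ω : Type} [MeasurableSpace Ω] (P : Measure Ω)
    (X : Sym2 (Fin d → ℤ) → Ω → ℝ) (K : Set (EuclideanSpace ℝ (Fin d))) : Prop :=
  ∀ ε : ℝ, 0 < ε → ε < 1 → Tendsto (fun t : ℝ => P {ω | ∀ s : ℝ, t ≤ s →
      (1 - ε) • K ⊆ s⁻¹ • fat (reached (fun e => X e ω) s) ∧
      s⁻¹ • fat (reached (fun e => X e ω) s) ⊆ (1 + ε) • K}) atTop (𝓝 1)

theorem not_ball {d : ℕ} (hd : 0 < d) (SC c0 c1 c2 b1 b2 g : ℕ)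
    (hrun : run SC (2 * (d - 1)) c0 c1 c2 b1 b2 = g) (hSC : 0 < SC) (hg : 0 < g)
    (h0 : 0 < c0) (h0' : c0 ≤ 4096) (h1 : 0 < c1)
    (h1' : c1 < b1) (h1'' : b1 ≤ 4096) (h2 : 0 < c2) (h2' : c2 < b2) (h2'' : b2 ≤ 4096)
    (lam ε q : ℝ) (hlam : 0 < lam) (hq : 2 * d * 1.81066 ≤ 1 + lam) (hε : 0 < ε) (hε1 : ε < 1)
    (hq0 : 0 ≤ q) (hqd : q ^ 2 ≤ d)
    (hnum : lam * ((1 + ε) ^ 2 * ((g : ℝ) / SC)) < 3 * (6 / 5) * q * (1 - ε))
    {Ω : Type} [MeasurableSpace Ω] (P : Measure Ω) [IsProbabilityMeasure P]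
    (X : Sym2 (Fin d → ℤ) → Ω → ℝ) (hX : iIndepFun X P)
    (hm : ∀ e, Measurable (X e) ∧ P.map (X e) = expMeasure 1)
    (K : Set (EuclideanSpace ℝ (Fin d))) (hK : IsLimitShape P X K) (r : ℝ) (hr : 0 < r) :
    K ≠ Metric.closedBall 0 r := by
  rintro rfl
  have hmeas : Measurable (fun ω e => X e ω) := measurable_pi_lambda _ (fun e => (hm e).1)
  have hres := res_of_indep P X hX hm
  haveI : IsProbabilityMeasure (P.map (fun ω e => X e ω)) :=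
    Measure.isProbabilityMeasure_map hmeas.aemeasurable
  have hsq : q ≤ Real.sqrt d := Real.le_sqrt_of_sq_le hqd
  refine not_ball_core hd ⟨0, hd⟩ (P.map (fun ω e => X e ω)) hres SC g hSC hg ?_ (6 / 5) lam ε
    (by norm_num) hlam ?_ hε hε1 ?_ r hr ?_
  · intro A L κ hκ
    rw [← hrun]
    exact Bd_run ⟨0, hd⟩ _ hres SC c0 c1 c2 b1 b2 hSC h0 h0' h1 h1' h1'' h2 h2' h2'' A L κ hκ
  · have hd' : (0 : ℝ) < 2 * d := by positivity
    nlinarith [mul_lt_mul_of_pos_left cosh_bound hd']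
  · refine hnum.trans_le ?_
    have : 0 < 1 - ε := by linarith
    have := mul_le_mul_of_nonneg_right (mul_le_mul_of_nonneg_left hsq
      (by norm_num : (0 : ℝ) ≤ 3 * (6 / 5))) this.le
    exact this
  · refine tendsto_of_tendsto_of_tendsto_of_le_of_le (hK ε hε hε1) tendsto_const_nhds ?_ ?_
    · intro t
      exact Measure.le_map_apply hmeas.aemeasurable _
    · intro t
      exact prob_le_one

end Pool.Agent.Helper52.Eden
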