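import Mathlib

set_option autoImplicit false
open MeasureTheory ProbabilityTheory Filter Topology
open scoped ENNReal

namespace Pool.Agent.Helper52.Eden

/-- nearest neighbour lattice -/
def lattice (d : ℕ) : SimpleGraph (Fin d → ℤ) :=
  SimpleGraph.fromRel (fun y z : Fin d → ℤ => ∑ i, |y i - z i| = 1)

/-- passage time between two vertices -/
noncomputable def passage {d : ℕ} (x : Sym2 (Fin d → ℤ) → ℝ) (u v : Fin d → ℤ) : ℝ :=
  ⨅ p : (lattice d).Walk u v, (p.edges.map x).sum

/-- cost of the vertex list `l` started at `u` -/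
noncomputable def cost {V : Type*} (x : Sym2 V → ℝ) : V → List V → ℝ≥0∞
  | _, [] => 0
  | u, v :: l => ENNReal.ofReal (x s(u, v)) + cost x v l

/-- `l` continues from `u` along edges of `G`, avoids `S`, and ends in `A` -/
def Good {V : Type*} (G : SimpleGraph V) (S : Finset V) (A : Set V) : V → List V → Prop
  | u, [] => u ∈ A
  | u, v :: l => G.Adj u v ∧ v ∉ S ∧ Good G S A v l

/-- passage time from `S` to `A` by paths which never return to `S` -/
noncomputable def TT {V : Type*} (G : SimpleGraph V) (S : Finset V) (A : Set V)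
    (x : Sym2 V → ℝ) : ℝ≥0∞ :=
  ⨅ (u : V) (l : List V) (_ : u ∈ S ∧ Good G S A u l), cost x u l

/-- subtract `a` on the coordinates in `D` -/
noncomputable def sub {E : Type*} [DecidableEq E] (x : E → ℝ) (D : Finset E) (a : ℝ) : E → ℝ :=
  fun f => if f ∈ D then x f - a else x f

/-- resampling one coordinate by an exponential variable does not change the measure -/
def Res {E : Type*} [DecidableEq E] (μ : Measure (E → ℝ)) : Prop :=
  ∀ (f : E) (F : (E → ℝ) → ℝ≥0∞), Measurable F →
    ∫⁻ x, F x ∂μ = ∫⁻ x, ∫⁻ s, F (Function.update x f s) ∂(expMeasure 1) ∂μ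

/-- binary digit sum -/
def pc (n : ℕ) : ℕ := (Nat.digits 2 n).sum

/-- maximal number of edges of a set of `k` vertices of a cubic lattice -/
def FF (k : ℕ) : ℕ := ∑ j ∈ Finset.range k, pc j

/-- vertices of `S` at level `L` -/
def lev {d : ℕ} (i0 : Fin d) (S : Finset (Fin d → ℤ)) (L : ℤ) : Finset (Fin d → ℤ) :=
  S.filter (fun v => v i0 = L)

/-- the bound predicate -/
def Bd {d : ℕ} (μ : Measure (Sym2 (Fin d → ℤ) → ℝ)) (A : Set (Fin d → ℤ)) (i0 : Fin d) (L : ℤ)
    (κ : ℝ≥0∞) (SC : ℕ) (a b e g : ℕ) : Prop :=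
  ∀ S : Finset (Fin d → ℤ), (∀ v ∈ S, L ≤ v i0 ∧ v i0 ≤ L + 2) →
    (lev i0 S L).card = a → (lev i0 S (L + 1)).card = b → (lev i0 S (L + 2)).card = e →
    ∫⁻ x, TT (lattice d) S A x ∂μ ≤ κ + (g : ℝ≥0∞) / (SC : ℝ≥0∞)

/-- sites reached by time `t` -/
def reached {d : ℕ} (x : Sym2 (Fin d → ℤ) → ℝ) (t : ℝ) : Set (Fin d → ℤ) :=
  {v | passage x 0 v ≤ t}

/-- fattened version `A + [-1/2,1/2]^d` -/
def fat {d : ℕ} (A : Set (Fin d → ℤ)) : Set (EuclideanSpace ℝ (Fin d)) :=
  {z | ∃ v ∈ A, ∀ i, |z i - (v i : ℝ)| ≤ 1 / 2}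

open scoped Pointwise in
/-- the event in the shape theorem -/
def shapeEvent {d : ℕ} (K : Set (EuclideanSpace ℝ (Fin d))) (ε t : ℝ) :
    Set (Sym2 (Fin d → ℤ) → ℝ) :=
  {x | ∀ s : ℝ, t ≤ s →
      (1 - ε) • K ⊆ s⁻¹ • fat (reached x s) ∧ s⁻¹ • fat (reached x s) ⊆ (1 + ε) • K}


/-! ### adj -/

section

theorem adj_iff {d : ℕ} (u v : Fin d → ℤ) : (lattice d).Adj u v ↔ ∑ i, |u i - v i| = 1 := by
  unfold lattice
  rw [SimpleGraph.fromRel_adj]
  constructor
  · rintro ⟨-, h | h⟩
    · exact h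
    · rw [← h]
      exact Finset.sum_congr rfl fun i _ => abs_sub_comm _ _
  · intro h
    refine ⟨?_, Or.inl h⟩
    rintro rfl
    simp at h

theorem adj_single_sum {d : ℕ} (i : Fin d) (c : ℤ) (hc : |c| = 1) :
    ∑ j : Fin d, |(Pi.single i c : Fin d → ℤ) j| = 1 := by
  rw [Finset.sum_eq_single i]
  · rw [Pi.single_eq_same, hc]
  · intro j _ hj
    rw [Pi.single_eq_of_ne hj, abs_zero]
  · intro h
    exact absurd (Finset.mem_univ i) h

theorem adj_add {d : ℕ} (u : Fin d → ℤ) (i : Fin d) : (lattice d).Adj u (u + Pi.single i 1) := by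
  rw [adj_iff]
  refine (Finset.sum_congr rfl fun j _ => ?_).trans (adj_single_sum i 1 (by simp))
  rw [Pi.add_apply, sub_add_cancel_left, abs_neg]

theorem adj_sub {d : ℕ} (u : Fin d → ℤ) (i : Fin d) : (lattice d).Adj u (u - Pi.single i 1) := by
  rw [adj_iff]
  refine (Finset.sum_congr rfl fun j _ => ?_).trans (adj_single_sum i 1 (by simp))
  rw [Pi.sub_apply, sub_sub_cancel]

theorem adj_cases {d : ℕ} {u v : Fin d → ℤ} (h : (lattice d).Adj u v) :
    ∃ i, v = u + Pi.single i 1 ∨ v = u - Pi.single i 1 := by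
  classical
  rw [adj_iff] at h
  obtain ⟨i, hi⟩ : ∃ i, |u i - v i| ≠ 0 := by
    by_contra hcon
    push Not at hcon
    rw [Finset.sum_eq_zero fun i _ => hcon i] at h
    exact absurd h (by norm_num)
  rw [← Finset.add_sum_erase _ _ (Finset.mem_univ i)] at h
  have h0 : 0 ≤ ∑ j ∈ Finset.univ.erase i, |u j - v j| := Finset.sum_nonneg fun j _ => abs_nonneg _
  have h1 : 0 ≤ |u i - v i| := abs_nonneg _
  have h2 : |u i - v i| = 1 := by omega
  have h3 : ∑ j ∈ Finset.univ.erase i, |u j - v j| = 0 := by omega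
  rw [Finset.sum_eq_zero_iff_of_nonneg fun j _ => abs_nonneg _] at h3
  have h4 : ∀ j, j ≠ i → v j = u j := by
    intro j hj
    have := h3 j (Finset.mem_erase.mpr ⟨hj, Finset.mem_univ _⟩)
    rw [abs_eq_zero] at this
    omega
  refine ⟨i, ?_⟩
  rcases (abs_eq (by norm_num : (0 : ℤ) ≤ 1)).mp h2 with h5 | h5
  · right
    funext j
    by_cases hj : j = i
    · subst hj
      rw [Pi.sub_apply, Pi.single_eq_same]
      omega
    · rw [Pi.sub_apply, Pi.single_eq_of_ne hj, h4 j hj, sub_zero]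
  · left
    funext j
    by_cases hj : j = i
    · subst hj
      rw [Pi.add_apply, Pi.single_eq_same]
      omega
    · rw [Pi.add_apply, Pi.single_eq_of_ne hj, h4 j hj, add_zero]


end

/-! ### conn -/

section

theorem conn_aux {d : ℕ} (n : ℕ) : ∀ u v : Fin d → ℤ, ∑ i, (u i - v i).natAbs ≤ n →
    Nonempty ((lattice d).Walk u v) := by
  induction n with
  | zero =>
    intro u v h
    have h0 : ∑ i, (u i - v i).natAbs = 0 := Nat.le_zero.1 h
    have huv : u = v := by
      funext i
      have := (Finset.sum_eq_zero_iff.1 h0) i (Finset.mem_univ i)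
      omega
    subst huv
    exact ⟨SimpleGraph.Walk.nil⟩
  | succ n ih =>
    intro u v h
    by_cases huv : u = v
    · subst huv
      exact ⟨SimpleGraph.Walk.nil⟩
    · obtain ⟨i, hi⟩ : ∃ i, u i ≠ v i := by
        by_contra hc
        push Not at hc
        exact huv (funext hc)
      rcases lt_or_gt_of_ne hi with hlt | hgt
      · have hlt' : ∑ j, ((u + Pi.single i 1 : Fin d → ℤ) j - v j).natAbs <
            ∑ j, (u j - v j).natAbs := by
          refine Finset.sum_lt_sum (fun j _ => ?_) ⟨i, Finset.mem_univ i, ?_⟩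
          · by_cases hj : j = i
            · subst hj
              simp only [Pi.add_apply, Pi.single_eq_same]
              omega
            · simp [Pi.single_eq_of_ne hj]
          · simp only [Pi.add_apply, Pi.single_eq_same]
            omega
        obtain ⟨w⟩ := ih (u + Pi.single i 1) v (by omega)
        exact ⟨SimpleGraph.Walk.cons (adj_add u i) w⟩
      · have hlt' : ∑ j, ((u - Pi.single i 1 : Fin d → ℤ) j - v j).natAbs <
            ∑ j, (u j - v j).natAbs := by
          refine Finset.sum_lt_sum (fun j _ => ?_) ⟨i, Finset.mem_univ i, ?_⟩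
          · by_cases hj : j = i
            · subst hj
              simp only [Pi.sub_apply, Pi.single_eq_same]
              omega
            · simp [Pi.single_eq_of_ne hj]
          · simp only [Pi.sub_apply, Pi.single_eq_same]
            omega
        obtain ⟨w⟩ := ih (u - Pi.single i 1) v (by omega)
        exact ⟨SimpleGraph.Walk.cons (adj_sub u i) w⟩

theorem walk_exists {d : ℕ} (u v : Fin d → ℤ) : Nonempty ((lattice d).Walk u v) :=
  conn_aux _ u v le_rfl


end

/-! ### resIndep -/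

section

theorem resIndep_map {E : Type*} [DecidableEq E] (ν : Measure ℝ) [IsProbabilityMeasure ν] (f : E) :
    ((Measure.infinitePi (fun _ : E => ν)).prod ν).map
        (fun p : (E → ℝ) × ℝ => Function.update p.1 f p.2)
      = Measure.infinitePi (fun _ : E => ν) := by
  have hmeas : Measurable (fun p : (E → ℝ) × ℝ => Function.update p.1 f p.2) :=
    measurable_update'
  apply Measure.eq_infinitePi
  intro s t ht
  rw [Measure.map_apply hmeas (MeasurableSet.pi s.countable_toSet (fun i _ => ht i))]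
  by_cases hf : f ∈ s
  · have hset : (fun p : (E → ℝ) × ℝ => Function.update p.1 f p.2) ⁻¹' (Set.pi s t) =
        (Set.pi ((s.erase f : Finset E) : Set E) t) ×ˢ (t f) := by
      ext ⟨x, r⟩
      simp only [Set.mem_preimage, Set.mem_pi, Set.mem_prod, Finset.mem_coe, Finset.mem_erase]
      constructor
      · intro h
        refine ⟨fun i hi => ?_, ?_⟩
        · have := h i hi.2
          rwa [Function.update_of_ne hi.1] at this
        · have := h f hf
          rwa [Function.update_self] at this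
      · rintro ⟨h1, h2⟩ i hi
        by_cases hif : i = f
        · subst hif; rwa [Function.update_self]
        · rw [Function.update_of_ne hif]; exact h1 i ⟨hif, hi⟩
    rw [hset, Measure.prod_prod, Measure.infinitePi_pi _ (fun i _ => ht i),
      Finset.prod_erase_mul _ _ hf]
  · have hset : (fun p : (E → ℝ) × ℝ => Function.update p.1 f p.2) ⁻¹' (Set.pi s t) =
        (Set.pi (s : Set E) t) ×ˢ (Set.univ : Set ℝ) := by
      ext ⟨x, r⟩
      simp only [Set.mem_preimage, Set.mem_pi, Set.mem_prod, Finset.mem_coe, Set.mem_univ,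
        and_true]
      constructor
      · intro h i hi
        have hif : i ≠ f := fun h' => hf (h' ▸ hi)
        have := h i hi
        rwa [Function.update_of_ne hif] at this
      · intro h i hi
        have hif : i ≠ f := fun h' => hf (h' ▸ hi)
        rw [Function.update_of_ne hif]; exact h i hi
    rw [hset, Measure.prod_prod, Measure.infinitePi_pi _ (fun i _ => ht i), measure_univ, mul_one]

theorem res_of_indep {E Ω : Type*} [DecidableEq E] [MeasurableSpace Ω] (P : Measure Ω)
    [IsProbabilityMeasure P] (X : E → Ω → ℝ) (hX : iIndepFun X P)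
    (hm : ∀ e, Measurable (X e) ∧ P.map (X e) = expMeasure 1) :
    Res (P.map (fun ω e => X e ω)) := by
  haveI : IsProbabilityMeasure (expMeasure 1) := isProbabilityMeasure_expMeasure one_pos
  have h1 : P.map (fun ω e => X e ω) = Measure.infinitePi (fun _ : E => expMeasure 1) := by
    haveI : ∀ e, IsProbabilityMeasure (P.map (X e)) := fun e =>
      Measure.isProbabilityMeasure_map (hm e).1.aemeasurable
    rw [hX.map_fun_eq_infinitePi_map (fun e => (hm e).1)]
    apply Measure.eq_infinitePi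
    intro s t ht
    rw [Measure.infinitePi_pi _ (fun i _ => ht i)]
    exact Finset.prod_congr rfl (fun i _ => by rw [(hm i).2])
  rw [h1]
  intro f F hF
  have hmeas : Measurable (fun p : (E → ℝ) × ℝ => Function.update p.1 f p.2) :=
    measurable_update'
  conv_lhs => rw [← resIndep_map (expMeasure 1) f]
  rw [lintegral_map hF hmeas]
  exact lintegral_prod _ (hF.comp hmeas).aemeasurable


end

/-! ### expShift -/

section

theorem exp_shift (a : ℝ) (ha : 0 ≤ a) (ψ : ℝ → ℝ≥0∞) (hψ : Measurable ψ) :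
    ∫⁻ s, (if a ≤ s then ψ (s - a) else 0) ∂(expMeasure 1)
      = ENNReal.ofReal (Real.exp (-a)) * ∫⁻ s, ψ s ∂(expMeasure 1) := by
  have hp : ∀ x : ℝ, gammaPDF 1 1 x = ENNReal.ofReal (if 0 ≤ x then Real.exp (-x) else 0) := by
    intro x
    unfold gammaPDF gammaPDFReal
    congr 1
    split_ifs <;> simp
  have hmp : Measurable (gammaPDF 1 1) := measurable_gammaPDFReal 1 1 |>.ennreal_ofReal
  have hm : Measurable (fun s : ℝ => if a ≤ s then ψ (s - a) else 0) :=
    Measurable.ite measurableSet_Ici (hψ.comp (measurable_id.sub_const a)) measurable_const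
  unfold expMeasure gammaMeasure
  rw [lintegral_withDensity_eq_lintegral_mul _ hmp hm, lintegral_withDensity_eq_lintegral_mul _ hmp hψ]
  have h1 : ∀ s : ℝ, (gammaPDF 1 1 * fun s : ℝ => if a ≤ s then ψ (s - a) else 0) s
      = ENNReal.ofReal (Real.exp (-a)) * (gammaPDF 1 1 * ψ) (s - a) := by
    intro s
    simp only [Pi.mul_apply]
    rw [hp, hp]
    by_cases h : a ≤ s
    · have h2 : 0 ≤ s := ha.trans h
      have h3 : 0 ≤ s - a := sub_nonneg.2 h
      rw [if_pos h, if_pos h2, if_pos h3, ← mul_assoc, ← ENNReal.ofReal_mul (Real.exp_pos _).le,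
        ← Real.exp_add]
      congr 3
      ring
    · have h3 : ¬ 0 ≤ s - a := fun h4 => h (sub_nonneg.1 h4)
      rw [if_neg h, if_neg h3]
      simp
  simp_rw [h1]
  have hm2 : Measurable (fun s : ℝ => (gammaPDF 1 1 * ψ) (s - a)) :=
    (hmp.mul hψ).comp (measurable_id.sub_const a)
  rw [lintegral_const_mul _ hm2]
  congr 1
  exact lintegral_sub_right_eq_self (gammaPDF 1 1 * ψ) a


end

/-! ### expLap -/

section

theorem expLap_meas (a r : ℝ) : Measurable (gammaPDF a r) :=
  (measurable_gammaPDFReal a r).ennreal_ofReal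

theorem exp_lap (l : ℝ) (hl : 0 ≤ l) :
    ∫⁻ s, ENNReal.ofReal (Real.exp (-(l * s))) ∂(expMeasure 1) = ENNReal.ofReal (1 / (1 + l)) := by
  have h1l : 0 < 1 + l := by linarith
  have hm : Measurable (fun s : ℝ => ENNReal.ofReal (Real.exp (-(l * s)))) := by fun_prop
  have e0 : expMeasure 1 = volume.withDensity (gammaPDF 1 1) := rfl
  rw [e0, lintegral_withDensity_eq_lintegral_mul _ (expLap_meas 1 1) hm]
  have e1 : ∀ s : ℝ, (gammaPDF 1 1 * fun s : ℝ => ENNReal.ofReal (Real.exp (-(l * s)))) s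
      = ENNReal.ofReal (1 / (1 + l)) * gammaPDF 1 (1 + l) s := by
    intro s
    show gammaPDF 1 1 s * ENNReal.ofReal (Real.exp (-(l * s))) = _
    rcases lt_or_ge s 0 with hs | hs
    · rw [gammaPDF_of_neg hs, gammaPDF_of_neg hs]; simp
    · rw [gammaPDF_of_nonneg hs, gammaPDF_of_nonneg hs, ← ENNReal.ofReal_mul (by positivity),
        ← ENNReal.ofReal_mul (by positivity)]
      congr 1
      simp only [Real.rpow_one, Real.Gamma_one, sub_self, Real.rpow_zero]
      have : Real.exp (-((1 + l) * s)) = Real.exp (-(1 * s)) * Real.exp (-(l * s)) := by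
        rw [← Real.exp_add]; congr 1; ring
      rw [this]
      field_simp
  rw [lintegral_congr e1, lintegral_const_mul _ (expLap_meas 1 (1 + l)),
    lintegral_gammaPDF_eq_one one_pos h1l, mul_one]

theorem exp_lap1 (l : ℝ) (hl : 0 ≤ l) :
    ∫⁻ s, ENNReal.ofReal (Real.exp (-(l * s))) * ENNReal.ofReal s ∂(expMeasure 1)
      = ENNReal.ofReal (1 / (1 + l) ^ 2) := by
  have h1l : 0 < 1 + l := by linarith
  have hm : Measurable (fun s : ℝ => ENNReal.ofReal (Real.exp (-(l * s))) * ENNReal.ofReal s) := by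
    fun_prop
  have e0 : expMeasure 1 = volume.withDensity (gammaPDF 1 1) := rfl
  rw [e0, lintegral_withDensity_eq_lintegral_mul _ (expLap_meas 1 1) hm]
  have e1 : ∀ s : ℝ, (gammaPDF 1 1 * fun s : ℝ => ENNReal.ofReal (Real.exp (-(l * s)))
      * ENNReal.ofReal s) s
      = ENNReal.ofReal (1 / (1 + l) ^ 2) * gammaPDF 2 (1 + l) s := by
    intro s
    show gammaPDF 1 1 s * (ENNReal.ofReal (Real.exp (-(l * s))) * ENNReal.ofReal s) = _
    rcases lt_or_ge s 0 with hs | hs
    · rw [gammaPDF_of_neg hs, gammaPDF_of_neg hs]; simp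
    · rw [gammaPDF_of_nonneg hs, gammaPDF_of_nonneg hs, ← ENNReal.ofReal_mul (by positivity),
        ← ENNReal.ofReal_mul (by positivity), ← ENNReal.ofReal_mul (by positivity)]
      congr 1
      have h2 : (2 : ℝ) - 1 = 1 := by norm_num
      have h3 : (1 + l) ^ (2 : ℝ) = (1 + l) ^ 2 := by
        exact_mod_cast Real.rpow_natCast (1 + l) 2
      simp only [Real.rpow_one, Real.Gamma_one, Real.Gamma_two, sub_self, Real.rpow_zero, h2, h3]
      have : Real.exp (-((1 + l) * s)) = Real.exp (-(1 * s)) * Real.exp (-(l * s)) := by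
        rw [← Real.exp_add]; congr 1; ring
      rw [this]
      field_simp
  rw [lintegral_congr e1, lintegral_const_mul _ (expLap_meas 2 (1 + l)),
    lintegral_gammaPDF_eq_one two_pos h1l, mul_one]


end

/-! ### resPos -/

section

theorem resPos_exp : expMeasure 1 (Set.Iic 0) = 0 := by
  have : IsProbabilityMeasure (expMeasure 1) := isProbabilityMeasure_expMeasure one_pos
  have h1 := cdf_expMeasure_eq (r := 1) one_pos 0
  rw [cdf_eq_real] at h1
  have h2 : (expMeasure 1).real (Set.Iic 0) = 0 := by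
    rw [h1]; simp
  exact (measureReal_eq_zero_iff).1 h2

theorem res_pos {E : Type*} [DecidableEq E] [Countable E] (μ : Measure (E → ℝ))
    [IsProbabilityMeasure μ] (h : Res μ) : ∀ᵐ x ∂μ, ∀ e, 0 < x e := by
  rw [ae_all_iff]
  intro e
  have hB : MeasurableSet {x : E → ℝ | x e ≤ 0} :=
    measurableSet_le (measurable_pi_apply e) measurable_const
  have h1 := h e (Set.indicator {x : E → ℝ | x e ≤ 0} 1) (measurable_one.indicator hB)
  rw [lintegral_indicator_one hB] at h1
  have h2 : ∀ x : E → ℝ, ∫⁻ s, Set.indicator {x : E → ℝ | x e ≤ 0} 1 (Function.update x e s)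
      ∂(expMeasure 1) = (0 : ℝ≥0∞) := by
    intro x
    have h3 : ∀ s : ℝ, Set.indicator {x : E → ℝ | x e ≤ 0} 1 (Function.update x e s) =
        Set.indicator (Set.Iic (0 : ℝ)) (1 : ℝ → ℝ≥0∞) s := by
      intro s
      simp only [Set.indicator_apply, Set.mem_setOf_eq, Function.update_self, Set.mem_Iic,
        Pi.one_apply]
    simp_rw [h3]
    rw [lintegral_indicator_one measurableSet_Iic]
    exact resPos_exp
  simp_rw [h2] at h1
  rw [lintegral_zero] at h1
  rw [ae_iff]
  simpa only [not_lt] using h1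


end

/-! ### shift -/

section

theorem shift_lemma_meas_sub {E : Type*} [DecidableEq E] (e : E) (D : Finset E) :
    Measurable (fun x : E → ℝ => sub x D (x e)) := by
  rw [measurable_pi_iff]
  intro g
  unfold sub
  by_cases h : g ∈ D
  · simp only [h, if_true]
    fun_prop
  · simp only [h, if_false]
    fun_prop

theorem shift_lemma_meas_set {E : Type*} [DecidableEq E] (e : E) (D : Finset E) :
    MeasurableSet {x : E → ℝ | ∀ f ∈ D, x e ≤ x f} := by
  have : {x : E → ℝ | ∀ f ∈ D, x e ≤ x f} = ⋂ f ∈ (D : Set E), {x : E → ℝ | x e ≤ x f} := by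
    ext x
    simp
  rw [this]
  refine MeasurableSet.biInter (Finset.countable_toSet D) fun f _ => ?_
  exact measurableSet_le (measurable_pi_apply e) (measurable_pi_apply f)

theorem shift_lemma_meas {E : Type*} [DecidableEq E] (e : E) (D : Finset E)
    (φ : ℝ → (E → ℝ) → ℝ≥0∞) (hφ : Measurable (fun p : ℝ × (E → ℝ) => φ p.1 p.2)) :
    Measurable (fun x : E → ℝ =>
      if ∀ f ∈ D, x e ≤ x f then φ (x e) (sub x D (x e)) else 0) := by
  refine Measurable.ite (shift_lemma_meas_set e D) ?_ measurable_const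
  exact hφ.comp ((measurable_pi_apply e).prodMk (shift_lemma_meas_sub e D))

theorem shift_lemma_sub1 {E : Type*} [DecidableEq E] (x : E → ℝ) (D : Finset E) (f : E) (s a : ℝ)
    (hf : f ∉ D) : sub (Function.update x f s) D a = Function.update (sub x D a) f s := by
  funext g
  by_cases hg : g = f
  · subst hg
    simp [sub, hf]
  · simp [sub, Function.update_of_ne hg]

theorem shift_lemma_sub2 {E : Type*} [DecidableEq E] (x : E → ℝ) (D : Finset E) (f : E) (s a : ℝ)
    (hf : f ∉ D) : sub (Function.update x f s) (insert f D) a =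
      Function.update (sub x D a) f (s - a) := by
  funext g
  by_cases hg : g = f
  · subst hg
    simp [sub]
  · simp [sub, Function.update_of_ne hg, hg]

theorem shift_lemma {E : Type*} [DecidableEq E] [Countable E] (μ : Measure (E → ℝ))
    [IsProbabilityMeasure μ] (h : Res μ) (e : E) (D : Finset E) (he : e ∉ D)
    (φ : ℝ → (E → ℝ) → ℝ≥0∞) (hφ : Measurable (fun p : ℝ × (E → ℝ) => φ p.1 p.2)) :
    ∫⁻ x, (if ∀ f ∈ D, x e ≤ x f then φ (x e) (sub x D (x e)) else 0) ∂μ
      = ∫⁻ x, ENNReal.ofReal (Real.exp (-((D.card : ℝ) * x e))) * φ (x e) x ∂μ := by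
  induction D using Finset.induction_on generalizing φ with
  | empty =>
    refine lintegral_congr fun x => ?_
    have h1 : sub x ∅ (x e) = x := by
      funext g
      simp [sub]
    simp [h1]
  | insert f D hf ih =>
    rw [Finset.mem_insert, not_or] at he
    obtain ⟨hef, heD⟩ := he
    set φ' : ℝ → (E → ℝ) → ℝ≥0∞ := fun a x => ENNReal.ofReal (Real.exp (-a)) * φ a x with hφ'd
    have hφ' : Measurable (fun p : ℝ × (E → ℝ) => φ' p.1 p.2) := by
      have h1 : Measurable (fun p : ℝ × (E → ℝ) => ENNReal.ofReal (Real.exp (-p.1))) := by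
        fun_prop
      exact h1.mul hφ
    have hih := ih heD φ' hφ'
    rw [h f _ (shift_lemma_meas e (insert f D) φ hφ)]
    have hstep : ∫⁻ x, ∫⁻ s, (if ∀ g ∈ insert f D, (Function.update x f s) e ≤
          (Function.update x f s) g then
          φ ((Function.update x f s) e)
            (sub (Function.update x f s) (insert f D) ((Function.update x f s) e)) else 0)
          ∂(expMeasure 1) ∂μ =
        ∫⁻ x, ∫⁻ s, (if ∀ g ∈ D, (Function.update x f s) e ≤ (Function.update x f s) g then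
          φ' ((Function.update x f s) e)
            (sub (Function.update x f s) D ((Function.update x f s) e)) else 0)
          ∂(expMeasure 1) ∂μ := by
      refine lintegral_congr_ae ?_
      filter_upwards [res_pos μ h] with x hx
      have hxe : ∀ s, (Function.update x f s) e = x e := fun s => Function.update_of_ne hef s x
      have hC : ∀ s, (∀ g ∈ D, (Function.update x f s) e ≤ (Function.update x f s) g) ↔
          ∀ g ∈ D, x e ≤ x g := by
        intro s
        refine forall₂_congr fun g hg => ?_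
        have hgf : g ≠ f := fun h => hf (h ▸ hg)
        rw [hxe, Function.update_of_ne hgf]
      have hC2 : ∀ s, (∀ g ∈ insert f D, (Function.update x f s) e ≤ (Function.update x f s) g) ↔
          (x e ≤ s ∧ ∀ g ∈ D, x e ≤ x g) := by
        intro s
        rw [Finset.forall_mem_insert, hC, hxe, Function.update_self]
      by_cases hcx : ∀ g ∈ D, x e ≤ x g
      · have e1 : ∀ s, (if ∀ g ∈ insert f D, (Function.update x f s) e ≤
            (Function.update x f s) g then
            φ ((Function.update x f s) e)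
              (sub (Function.update x f s) (insert f D) ((Function.update x f s) e)) else 0) =
            if x e ≤ s then φ (x e) (Function.update (sub x D (x e)) f (s - x e)) else 0 := by
          intro s
          by_cases hs : x e ≤ s
          · rw [if_pos ((hC2 s).2 ⟨hs, hcx⟩), if_pos hs, hxe, shift_lemma_sub2 _ _ _ _ _ hf]
          · rw [if_neg (fun hh => hs ((hC2 s).1 hh).1), if_neg hs]
        have e2 : ∀ s, (if ∀ g ∈ D, (Function.update x f s) e ≤ (Function.update x f s) g then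
            φ' ((Function.update x f s) e)
              (sub (Function.update x f s) D ((Function.update x f s) e)) else 0) =
            ENNReal.ofReal (Real.exp (-(x e))) *
              φ (x e) (Function.update (sub x D (x e)) f s) := by
          intro s
          rw [if_pos ((hC s).2 hcx), hxe, shift_lemma_sub1 _ _ _ _ _ hf]
        simp only [e1, e2]
        have hψ : Measurable (fun s : ℝ => φ (x e) (Function.update (sub x D (x e)) f s)) :=
          hφ.comp (measurable_const.prodMk (measurable_update _))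
        rw [lintegral_const_mul _ hψ]
        exact exp_shift (x e) (hx e).le (fun s => φ (x e) (Function.update (sub x D (x e)) f s)) hψ
      · have e1 : ∀ s, (if ∀ g ∈ insert f D, (Function.update x f s) e ≤
            (Function.update x f s) g then
            φ ((Function.update x f s) e)
              (sub (Function.update x f s) (insert f D) ((Function.update x f s) e)) else 0) = 0 := by
          intro s
          exact if_neg (fun hh => hcx ((hC2 s).1 hh).2)
        have e2 : ∀ s, (if ∀ g ∈ D, (Function.update x f s) e ≤ (Function.update x f s) g then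
            φ' ((Function.update x f s) e)
              (sub (Function.update x f s) D ((Function.update x f s) e)) else 0) = 0 := by
          intro s
          exact if_neg (fun hh => hcx ((hC s).1 hh))
        simp only [e1, e2]
    rw [hstep, ← h f _ (shift_lemma_meas e D φ' hφ'), hih]
    refine lintegral_congr fun x => ?_
    simp only [hφ'd]
    rw [← mul_assoc, ← ENNReal.ofReal_mul (Real.exp_pos _).le, ← Real.exp_add,
      Finset.card_insert_of_notMem hf]
    congr 3
    push_cast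
    ring


end

/-! ### memoryless -/

section

theorem memoryless {E : Type*} [DecidableEq E] [Countable E] (μ : Measure (E → ℝ))
    [IsProbabilityMeasure μ] (h : Res μ) (D : Finset E) (e : E) (he : e ∈ D)
    (g : (E → ℝ) → ℝ≥0∞) (hg : Measurable g) (hge : ∀ x s, g (Function.update x e s) = g x) :
    ∫⁻ x, (if ∀ f ∈ D, x e ≤ x f then ENNReal.ofReal (x e) + g (sub x D (x e)) else 0) ∂μ
      = (D.card : ℝ≥0∞)⁻¹ * ((D.card : ℝ≥0∞)⁻¹ + ∫⁻ x, g x ∂μ) := by
  obtain ⟨D', hD'⟩ : ∃ D', D' = D.erase e := ⟨_, rfl⟩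
  have heD' : e ∉ D' := by rw [hD']; exact Finset.notMem_erase e D
  have hn : 0 < D.card := Finset.card_pos.2 ⟨e, he⟩
  have hcard : (D'.card : ℝ) = D.card - 1 := by
    rw [hD', Finset.card_erase_of_mem he, Nat.cast_sub hn, Nat.cast_one]
  have hc0 : (0 : ℝ) ≤ D'.card := Nat.cast_nonneg _
  have hlhs : ∫⁻ x, (if ∀ f ∈ D, x e ≤ x f then ENNReal.ofReal (x e) + g (sub x D (x e)) else 0) ∂μ
      = ∫⁻ x, (if ∀ f ∈ D', x e ≤ x f then
          (fun (a : ℝ) (y : E → ℝ) => ENNReal.ofReal a + g y) (x e) (sub x D' (x e)) else 0) ∂μ := by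
    refine lintegral_congr fun x => ?_
    refine if_congr ?_ ?_ rfl
    · constructor
      · intro hx f hf
        rw [hD'] at hf
        exact hx f (Finset.mem_of_mem_erase hf)
      · intro hx f hf
        by_cases hfe : f = e
        · rw [hfe]
        · refine hx f ?_
          rw [hD']
          exact Finset.mem_erase.2 ⟨hfe, hf⟩
    · have hs : sub x D (x e) = Function.update (sub x D' (x e)) e 0 := by
        funext f
        by_cases hfe : f = e
        · rw [hfe, Function.update_self]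
          simp [sub, he]
        · rw [Function.update_of_ne hfe]
          simp [sub, hD', Finset.mem_erase, hfe]
      beta_reduce
      rw [hs, hge]
  rw [hlhs, shift_lemma μ h e D' heD' (fun (a : ℝ) (y : E → ℝ) => ENNReal.ofReal a + g y)
    ((ENNReal.measurable_ofReal.comp measurable_fst).add (hg.comp measurable_snd))]
  have hmeas : Measurable fun x : E → ℝ => ENNReal.ofReal (Real.exp (-((D'.card : ℝ) * x e))) *
      (ENNReal.ofReal (x e) + g x) := by
    refine Measurable.mul ?_ ?_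
    · refine ENNReal.measurable_ofReal.comp (Real.measurable_exp.comp ?_)
      exact ((measurable_pi_apply e).const_mul _).neg
    · exact (ENNReal.measurable_ofReal.comp (measurable_pi_apply e)).add hg
  rw [h e _ hmeas]
  have hinner : ∀ x : E → ℝ, ∫⁻ s, (ENNReal.ofReal (Real.exp (-((D'.card : ℝ) *
      (Function.update x e s) e))) * (ENNReal.ofReal ((Function.update x e s) e) +
        g (Function.update x e s))) ∂(expMeasure 1) =
      ENNReal.ofReal (1 / (1 + (D'.card : ℝ)) ^ 2) + ENNReal.ofReal (1 / (1 + (D'.card : ℝ))) * g x := by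
    intro x
    have h1 : ∀ s : ℝ, (ENNReal.ofReal (Real.exp (-((D'.card : ℝ) *
      (Function.update x e s) e))) * (ENNReal.ofReal ((Function.update x e s) e) +
        g (Function.update x e s))) = ENNReal.ofReal (Real.exp (-((D'.card : ℝ) * s))) *
          ENNReal.ofReal s + ENNReal.ofReal (Real.exp (-((D'.card : ℝ) * s))) * g x := by
      intro s
      rw [Function.update_self, hge, mul_add]
    rw [lintegral_congr h1]
    have hm1 : Measurable fun s : ℝ => ENNReal.ofReal (Real.exp (-((D'.card : ℝ) * s))) := by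
      refine ENNReal.measurable_ofReal.comp (Real.measurable_exp.comp ?_)
      exact (measurable_id.const_mul _).neg
    have hm2 : Measurable fun s : ℝ => ENNReal.ofReal (Real.exp (-((D'.card : ℝ) * s))) *
        ENNReal.ofReal s := hm1.mul ENNReal.measurable_ofReal
    rw [lintegral_add_left hm2, lintegral_mul_const _ hm1,
      exp_lap _ hc0, exp_lap1 _ hc0]
  rw [lintegral_congr hinner, lintegral_add_left measurable_const, lintegral_const, measure_univ,
    mul_one, lintegral_const_mul _ hg]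
  have hn1 : 1 + (D'.card : ℝ) = D.card := by rw [hcard]; ring
  have hnr : (0 : ℝ) < D.card := by exact_mod_cast hn
  have hB : ENNReal.ofReal (1 / (D.card : ℝ)) = (D.card : ℝ≥0∞)⁻¹ := by
    rw [one_div, ENNReal.ofReal_inv_of_pos hnr, ENNReal.ofReal_natCast]
  have hA : ENNReal.ofReal (1 / (D.card : ℝ) ^ 2) = (D.card : ℝ≥0∞)⁻¹ * (D.card : ℝ≥0∞)⁻¹ := by
    rw [← hB, ← ENNReal.ofReal_mul (by positivity)]
    congr 1
    field_simp
  rw [hn1, hA, hB, mul_add]


end

/-! ### TTbasic -/

section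

theorem TT_le {V : Type*} (G : SimpleGraph V) (S : Finset V) (A : Set V) (x : Sym2 V → ℝ)
    {u : V} {l : List V} (hu : u ∈ S) (hl : Good G S A u l) : TT G S A x ≤ cost x u l :=
  iInf_le_of_le u (iInf_le_of_le l (iInf_le _ ⟨hu, hl⟩))

theorem TT_zero {V : Type*} (G : SimpleGraph V) (S : Finset V) (A : Set V) (x : Sym2 V → ℝ)
    {u : V} (hu : u ∈ S) (hA : u ∈ A) : TT G S A x = 0 :=
  le_antisymm (TT_le G S A x (l := []) hu hA) bot_le

theorem TTbasic_cost {V : Type*} (u : V) (l : List V) :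
    Measurable (fun x : Sym2 V → ℝ => cost x u l) := by
  induction l generalizing u with
  | nil => exact measurable_const
  | cons v l ih =>
    simp only [cost]
    exact ((measurable_pi_apply _).ennreal_ofReal).add (ih v)

theorem measurable_TT {V : Type*} [Countable V] (G : SimpleGraph V) (S : Finset V) (A : Set V) :
    Measurable (fun x : Sym2 V → ℝ => TT G S A x) := by
  unfold TT
  exact Measurable.iInf fun u => Measurable.iInf fun l => Measurable.iInf fun _ => TTbasic_cost u l

theorem TTbasic_upd {V : Type*} [DecidableEq V] (G : SimpleGraph V) (S : Finset V) (A : Set V)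
    (x : Sym2 V → ℝ) {u y : V} (hu : u ∈ S) (hy : y ∈ S) (s : ℝ) (v : V) (l : List V)
    (h : Good G S A v l) : cost (Function.update x s(u, y) s) v l = cost x v l := by
  induction l generalizing v with
  | nil => rfl
  | cons v' l ih =>
    obtain ⟨_, h2, h3⟩ := h
    simp only [cost]
    rw [ih v' h3]
    have hne : s(v, v') ≠ s(u, y) := by
      intro he
      rw [Sym2.eq_iff] at he
      rcases he with ⟨_, h4⟩ | ⟨_, h4⟩
      · exact h2 (h4 ▸ hy)
      · exact h2 (h4 ▸ hu)
    rw [Function.update_of_ne hne]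

theorem TT_update {V : Type*} [DecidableEq V] (G : SimpleGraph V) (S : Finset V) (A : Set V)
    (x : Sym2 V → ℝ) {u y : V} (hu : u ∈ S) (hy : y ∈ S) (s : ℝ) :
    TT G S A (Function.update x s(u, y) s) = TT G S A x := by
  unfold TT
  refine iInf_congr fun v => iInf_congr fun l => iInf_congr fun h => ?_
  exact TTbasic_upd G S A x hu hy s v l h.2


end

/-! ### TTmono -/

section

theorem TTmono_key {V : Type*} (G : SimpleGraph V) (S S' : Finset V)
    (A : Set V) (x : Sym2 V → ℝ) (l : List V) : ∀ u : V, Good G S' A u l →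
    Good G S A u l ∨ ∃ u' ∈ S, ∃ l', Good G S A u' l' ∧ cost x u' l' ≤ cost x u l := by
  induction l with
  | nil => intro u hu; exact Or.inl hu
  | cons v l ih =>
    intro u hu
    obtain ⟨h1, h2, h3⟩ := hu
    have hle : cost x v l ≤ cost x u (v :: l) := by
      show cost x v l ≤ ENNReal.ofReal (x s(u, v)) + cost x v l
      exact le_add_self
    rcases ih v h3 with h | ⟨u', hu', l', hl', hc⟩
    · by_cases hv : v ∈ S
      · exact Or.inr ⟨v, hv, l, h, hle⟩
      · exact Or.inl ⟨h1, hv, h⟩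
    · exact Or.inr ⟨u', hu', l', hl', hc.trans hle⟩

theorem TT_mono {V : Type*} (G : SimpleGraph V) (S S' : Finset V) (h : S' ⊆ S)
    (A : Set V) (x : Sym2 V → ℝ) : TT G S A x ≤ TT G S' A x := by
  unfold TT
  refine le_iInf fun u => le_iInf fun l => le_iInf fun hul => ?_
  rcases TTmono_key G S S' A x l u hul.2 with h1 | ⟨u', hu', l', hl', hc⟩
  · exact TT_le G S A x (h hul.1) h1
  · exact (TT_le G S A x hu' hl').trans hc


end

/-! ### det -/

section


theorem det_good_mono {V : Type*} [DecidableEq V] (G : SimpleGraph V) (S : Finset V) (A : Set V)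
    (y : V) (l : List V) : ∀ u : V, Good G (insert y S) A u l → Good G S A u l := by
  induction l with
  | nil => intro u h; exact h
  | cons v l ih =>
    intro u h
    exact ⟨h.1, fun hv => h.2.1 (Finset.mem_insert_of_mem hv), ih v h.2.2⟩

theorem det_cost_out {V : Type*} [DecidableEq V] (G : SimpleGraph V) (S : Finset V) (A : Set V)
    (x : Sym2 V → ℝ) (D : Finset (Sym2 V)) (a : ℝ)
    (hD : ∀ e ∈ D, ∃ p q, e = s(p, q) ∧ p ∈ S ∧ q ∉ S) (l : List V) :
    ∀ v : V, v ∉ S → Good G S A v l → cost (sub x D a) v l = cost x v l := by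
  induction l with
  | nil => intro v _ _; rfl
  | cons w l ih =>
    intro v hv h
    have hw : w ∉ S := h.2.1
    have hnot : s(v, w) ∉ D := by
      intro hm
      obtain ⟨p, q, he, hp, hq⟩ := hD _ hm
      rw [Sym2.eq_iff] at he
      rcases he with ⟨h1, h2⟩ | ⟨h1, h2⟩
      · exact hv (h1 ▸ hp)
      · exact hw (h2 ▸ hp)
    show ENNReal.ofReal (sub x D a s(v, w)) + cost (sub x D a) w l
      = ENNReal.ofReal (x s(v, w)) + cost x w l
    rw [ih w hw h.2.2]
    have : sub x D a s(v, w) = x s(v, w) := by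
      unfold sub
      rw [if_neg hnot]
    rw [this]

theorem TT_step {V : Type*} [DecidableEq V] (G : SimpleGraph V) (S : Finset V) (A : Set V)
    (x : Sym2 V → ℝ) {u y : V} (hu : u ∈ S) (hy : y ∉ S) (huy : G.Adj u y)
    (D : Finset (Sym2 V)) (hD : ∀ e ∈ D, ∃ p q, e = s(p, q) ∧ p ∈ S ∧ q ∉ S) :
    TT G S A x ≤ ENNReal.ofReal (x s(u, y)) + TT G (insert y S) A (sub x D (x s(u, y))) := by
  rw [← tsub_le_iff_left]
  conv_rhs => unfold TT
  refine le_iInf fun u' => le_iInf fun l => le_iInf fun h => ?_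
  rw [tsub_le_iff_left]
  obtain ⟨hu', hg⟩ := h
  have hg' := det_good_mono G S A y l u' hg
  rw [Finset.mem_insert] at hu'
  rcases hu' with rfl | hu'
  · have h1 : Good G S A u (u' :: l) := ⟨huy, hy, hg'⟩
    refine (TT_le G S A x hu h1).trans ?_
    rw [det_cost_out G S A x D _ hD l u' hy hg']
    exact le_rfl
  · refine (TT_le G S A x hu' hg').trans ?_
    cases l with
    | nil =>
      show (0 : ℝ≥0∞) ≤ _
      exact zero_le
    | cons w l =>
      have hw : w ∉ S := hg'.2.1
      have h2 := det_cost_out G S A x D (x s(u, y)) hD l w hw hg'.2.2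
      show ENNReal.ofReal (x s(u', w)) + cost x w l ≤ ENNReal.ofReal (x s(u, y)) +
        (ENNReal.ofReal (sub x D (x s(u, y)) s(u', w)) + cost (sub x D (x s(u, y))) w l)
      rw [h2, ← add_assoc]
      refine add_le_add ?_ le_rfl
      by_cases hm : s(u', w) ∈ D
      · have h3 : sub x D (x s(u, y)) s(u', w) = x s(u', w) - x s(u, y) := by
          unfold sub
          rw [if_pos hm]
        rw [h3]
        calc ENNReal.ofReal (x s(u', w))
            = ENNReal.ofReal (x s(u, y) + (x s(u', w) - x s(u, y))) := by congr 1; ring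
          _ ≤ _ := ENNReal.ofReal_add_le
      · have h3 : sub x D (x s(u, y)) s(u', w) = x s(u', w) := by
          unfold sub
          rw [if_neg hm]
        rw [h3]
        exact le_add_self


end

/-! ### race -/

section

theorem race {V : Type*} [DecidableEq V] [Countable V] (μ : Measure (Sym2 V → ℝ))
    [IsProbabilityMeasure μ] (h : Res μ) (G : SimpleGraph V) (S : Finset V) (A : Set V)
    (D : Finset (V × V)) (hne : D.Nonempty)
    (hD : ∀ p ∈ D, p.1 ∈ S ∧ p.2 ∉ S ∧ G.Adj p.1 p.2) :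
    ∫⁻ x, TT G S A x ∂μ
      ≤ (D.card : ℝ≥0∞)⁻¹ * (1 + ∑ p ∈ D, ∫⁻ x, TT G (insert p.2 S) A x ∂μ) := by
  classical
  haveI : Countable (Sym2 V) := by unfold Sym2; infer_instance
  set DE : Finset (Sym2 V) := D.image (fun p => s(p.1, p.2)) with hDE
  have hinj : Set.InjOn (fun p : V × V => s(p.1, p.2)) (D : Set (V × V)) := by
    intro p hp q hq hpq
    simp only [Sym2.eq_iff] at hpq
    rcases hpq with ⟨h1, h2⟩ | ⟨h1, h2⟩
    · exact Prod.ext h1 h2
    · exfalso
      apply (hD q hq).2.1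
      rw [← h1]
      exact (hD p hp).1
  have hcard : DE.card = D.card := Finset.card_image_of_injOn hinj
  have hDEp : ∀ e ∈ DE, ∃ p q, e = s(p, q) ∧ p ∈ S ∧ q ∉ S := by
    intro e he
    obtain ⟨p, hp, rfl⟩ := Finset.mem_image.1 he
    exact ⟨p.1, p.2, rfl, (hD p hp).1, (hD p hp).2.1⟩
  set T : V × V → (Sym2 V → ℝ) → ℝ≥0∞ := fun p x =>
    if ∀ f ∈ DE, x s(p.1, p.2) ≤ x f then
      ENNReal.ofReal (x s(p.1, p.2)) + TT G (insert p.2 S) A (sub x DE (x s(p.1, p.2))) else 0 with hT
  have hpt : ∀ x, TT G S A x ≤ ∑ p ∈ D, T p x := by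
    intro x
    obtain ⟨p0, hp0, hmin⟩ := D.exists_min_image (fun p => x s(p.1, p.2)) hne
    have hall : ∀ f ∈ DE, x s(p0.1, p0.2) ≤ x f := by
      intro f hf
      obtain ⟨p, hp, rfl⟩ := Finset.mem_image.1 hf
      exact hmin p hp
    have h1 : TT G S A x ≤ T p0 x := by
      simp only [hT]
      rw [if_pos hall]
      exact TT_step G S A x (hD p0 hp0).1 (hD p0 hp0).2.1 (hD p0 hp0).2.2 DE hDEp
    exact h1.trans (Finset.single_le_sum (f := fun p => T p x) (fun _ _ => bot_le) hp0)
  have hTm : ∀ p ∈ D, Measurable (T p) := by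
    intro p _
    have hset : MeasurableSet {x : Sym2 V → ℝ | ∀ f ∈ DE, x s(p.1, p.2) ≤ x f} := by
      have : {x : Sym2 V → ℝ | ∀ f ∈ DE, x s(p.1, p.2) ≤ x f} =
          ⋂ f ∈ DE, {x : Sym2 V → ℝ | x s(p.1, p.2) ≤ x f} := by
        ext x; simp
      rw [this]
      exact Finset.measurableSet_biInter DE (fun f _ =>
        measurableSet_le (measurable_pi_apply _) (measurable_pi_apply _))
    have hsub : Measurable (fun x : Sym2 V → ℝ => sub x DE (x s(p.1, p.2))) := by
      refine measurable_pi_iff.2 (fun f => ?_)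
      unfold sub
      by_cases hf : f ∈ DE
      · simp only [hf, if_true]
        exact (measurable_pi_apply f).sub (measurable_pi_apply _)
      · simp only [hf, if_false]
        exact measurable_pi_apply f
    refine Measurable.ite hset ?_ measurable_const
    exact (ENNReal.measurable_ofReal.comp (measurable_pi_apply _)).add ((measurable_TT G _ A).comp hsub)
  have hn0 : (D.card : ℝ≥0∞) ≠ 0 := by
    have := hne.card_pos
    exact_mod_cast this.ne'
  have hnt : (D.card : ℝ≥0∞) ≠ ⊤ := ENNReal.natCast_ne_top _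
  calc ∫⁻ x, TT G S A x ∂μ ≤ ∫⁻ x, ∑ p ∈ D, T p x ∂μ := lintegral_mono hpt
    _ = ∑ p ∈ D, ∫⁻ x, T p x ∂μ := lintegral_finsetSum D hTm
    _ = ∑ p ∈ D, (D.card : ℝ≥0∞)⁻¹ * ((D.card : ℝ≥0∞)⁻¹ + ∫⁻ x, TT G (insert p.2 S) A x ∂μ) := by
        refine Finset.sum_congr rfl (fun p hp => ?_)
        have hmem : s(p.1, p.2) ∈ DE := Finset.mem_image_of_mem _ hp
        have := memoryless μ h DE s(p.1, p.2) hmem (fun x => TT G (insert p.2 S) A x)
          (measurable_TT G _ A) (fun x t => TT_update G (insert p.2 S) A x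
            (Finset.mem_insert_of_mem (hD p hp).1) (Finset.mem_insert_self _ _) t)
        rw [hcard] at this
        rw [← this]
    _ = (D.card : ℝ≥0∞)⁻¹ * (1 + ∑ p ∈ D, ∫⁻ x, TT G (insert p.2 S) A x ∂μ) := by
        rw [← Finset.mul_sum, Finset.sum_add_distrib, Finset.sum_const, nsmul_eq_mul,
          ENNReal.mul_inv_cancel hn0 hnt]


end

/-! ### FFadd -/

section


theorem FFadd_pc_even (k : ℕ) : pc (2 * k) = pc k := by
  unfold pc
  rcases Nat.eq_zero_or_pos k with h | h
  · subst h; simp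
  · rw [Nat.digits_def' (by norm_num) (by omega : 0 < 2 * k)]
    have h1 : 2 * k % 2 = 0 := by omega
    have h2 : 2 * k / 2 = k := by omega
    rw [h1, h2]; simp

theorem FFadd_pc_odd (k : ℕ) : pc (2 * k + 1) = pc k + 1 := by
  unfold pc
  rw [Nat.digits_def' (by norm_num) (by omega : 0 < 2 * k + 1)]
  have h1 : (2 * k + 1) % 2 = 1 := by omega
  have h2 : (2 * k + 1) / 2 = k := by omega
  rw [h1, h2]; simp [Nat.add_comm]

theorem FFadd_succ (k : ℕ) : FF (k + 1) = FF k + pc k := by
  unfold FF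
  rw [Finset.sum_range_succ]

theorem FFadd_even (k : ℕ) : FF (2 * k) = 2 * FF k + k := by
  induction k with
  | zero => simp [FF]
  | succ k ih =>
    have e : 2 * (k + 1) = 2 * k + 1 + 1 := by ring
    rw [e, FFadd_succ, FFadd_succ, ih, FFadd_pc_even, FFadd_pc_odd, FFadd_succ]
    ring

theorem FFadd_odd (k : ℕ) : FF (2 * k + 1) = FF k + FF (k + 1) + k := by
  rw [FFadd_succ, FFadd_even, FFadd_pc_even, FFadd_succ]
  ring

theorem FFadd_main (n : ℕ) : ∀ a b : ℕ, a + b = n → a ≤ b → FF a + FF b + a ≤ FF (a + b) := by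
  induction n using Nat.strong_induction_on with
  | _ n ih =>
    intro a b hab hle
    rcases Nat.eq_zero_or_pos a with h0 | h0
    · subst h0; simp [FF]
    · obtain ⟨p, hp⟩ : ∃ p, a = 2 * p ∨ a = 2 * p + 1 := ⟨a / 2, by omega⟩
      obtain ⟨q, hq⟩ : ∃ q, b = 2 * q ∨ b = 2 * q + 1 := ⟨b / 2, by omega⟩
      rcases hp with hp | hp <;> rcases hq with hq | hq
      · have i1 := ih (p + q) (by omega) p q rfl (by omega)
        have e : a + b = 2 * (p + q) := by omega
        rw [e, hp, hq, FFadd_even, FFadd_even, FFadd_even]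
        omega
      · have i1 := ih (p + q) (by omega) p q rfl (by omega)
        have i2 := ih (p + (q + 1)) (by omega) p (q + 1) rfl (by omega)
        have e : a + b = 2 * (p + q) + 1 := by omega
        rw [e, hp, hq, FFadd_even, FFadd_odd, FFadd_odd]
        have e2 : p + (q + 1) = p + q + 1 := by omega
        rw [e2] at i2
        omega
      · have i1 := ih (p + q) (by omega) p q rfl (by omega)
        have i2 := ih (p + 1 + q) (by omega) (p + 1) q rfl (by omega)
        have e : a + b = 2 * (p + q) + 1 := by omega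
        rw [e, hp, hq, FFadd_even, FFadd_odd, FFadd_odd]
        have e2 : p + 1 + q = p + q + 1 := by omega
        rw [e2] at i2
        omega
      · have i1 := ih (p + (q + 1)) (by omega) p (q + 1) rfl (by omega)
        have e : a + b = 2 * (p + q + 1) := by omega
        have e1 : p + (q + 1) = p + q + 1 := by omega
        rw [e1] at i1
        rw [e, hp, hq, FFadd_even, FFadd_odd, FFadd_odd]
        rcases Nat.lt_or_ge p q with hlt | hge
        · have i2 := ih (p + 1 + q) (by omega) (p + 1) q rfl (by omega)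
          have e2 : p + 1 + q = p + q + 1 := by omega
          rw [e2] at i2
          omega
        · have hpq : p = q := by omega
          subst hpq
          omega

theorem FF_add (a b : ℕ) (h : a ≤ b) : FF a + FF b + a ≤ FF (a + b) :=
  FFadd_main (a + b) a b rfl h


end

/-! ### iso -/

section

theorem iso_aux {d : ℕ} (m : ℕ) : ∀ T : Finset (Fin d → ℤ), T.card = m →
    ∑ i : Fin d, (T.filter (fun u => u + Pi.single i 1 ∈ T)).card ≤ FF T.card := by
  induction m using Nat.strong_induction_on with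
  | _ m ih =>
  intro T hT
  rcases Nat.lt_or_ge 1 T.card with h1 | h1
  · obtain ⟨x, hx, y, hy, hxy⟩ := Finset.one_lt_card.1 h1
    have hsep : ∃ (j : Fin d) (c : ℤ), (∃ x ∈ T, x j < c) ∧ (∃ y ∈ T, c ≤ y j) := by
      obtain ⟨j, hj⟩ := Function.ne_iff.1 hxy
      rcases lt_or_gt_of_ne hj with h | h
      · exact ⟨j, y j, ⟨x, hx, h⟩, ⟨y, hy, le_rfl⟩⟩
      · exact ⟨j, x j, ⟨y, hy, h⟩, ⟨x, hx, le_rfl⟩⟩
    obtain ⟨j, c, ⟨x1, hx1, hx1c⟩, ⟨y1, hy1, hy1c⟩⟩ := hsep
    set T1 := T.filter (fun u => u j < c) with hT1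
    set T2 := T.filter (fun u => ¬ u j < c) with hT2
    have hcard : T1.card + T2.card = T.card := Finset.card_filter_add_card_filter_not _
    have h1pos : 0 < T1.card := Finset.card_pos.2 ⟨x1, Finset.mem_filter.2 ⟨hx1, hx1c⟩⟩
    have h2pos : 0 < T2.card :=
      Finset.card_pos.2 ⟨y1, Finset.mem_filter.2 ⟨hy1, not_lt.2 hy1c⟩⟩
    have ih1 := ih T1.card (by omega) T1 rfl
    have ih2 := ih T2.card (by omega) T2 rfl
    set cross : Fin d → Finset (Fin d → ℤ) :=
      fun i => T1.filter (fun u => u + Pi.single i 1 ∈ T2) with hcross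
    have hle : ∀ i : Fin d, (T.filter (fun u => u + Pi.single i 1 ∈ T)).card ≤
        (T1.filter (fun u => u + Pi.single i 1 ∈ T1)).card +
        (T2.filter (fun u => u + Pi.single i 1 ∈ T2)).card + (cross i).card := by
      intro i
      have hsub : T.filter (fun u => u + Pi.single i 1 ∈ T) ⊆
          ((T1.filter (fun u => u + Pi.single i 1 ∈ T1)) ∪
          (T2.filter (fun u => u + Pi.single i 1 ∈ T2))) ∪ cross i := by
        intro u hu
        obtain ⟨hu1, hu2⟩ := Finset.mem_filter.1 hu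
        by_cases ha : u j < c
        · have huT1 : u ∈ T1 := Finset.mem_filter.2 ⟨hu1, ha⟩
          by_cases hb : (u + Pi.single i 1 : Fin d → ℤ) j < c
          · exact Finset.mem_union_left _ (Finset.mem_union_left _
              (Finset.mem_filter.2 ⟨huT1, Finset.mem_filter.2 ⟨hu2, hb⟩⟩))
          · exact Finset.mem_union_right _
              (Finset.mem_filter.2 ⟨huT1, Finset.mem_filter.2 ⟨hu2, hb⟩⟩)
        · have huT2 : u ∈ T2 := Finset.mem_filter.2 ⟨hu1, ha⟩
          have hge : (0 : ℤ) ≤ (Pi.single i (1 : ℤ) : Fin d → ℤ) j := by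
            by_cases hij : j = i
            · subst hij
              rw [Pi.single_eq_same]
              norm_num
            · rw [Pi.single_eq_of_ne hij]
          have hb : ¬ (u + Pi.single i 1 : Fin d → ℤ) j < c := by
            rw [Pi.add_apply]
            push Not at ha ⊢
            linarith
          exact Finset.mem_union_left _ (Finset.mem_union_right _
              (Finset.mem_filter.2 ⟨huT2, Finset.mem_filter.2 ⟨hu2, hb⟩⟩))
      calc (T.filter (fun u => u + Pi.single i 1 ∈ T)).card ≤ _ := Finset.card_le_card hsub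
        _ ≤ ((T1.filter (fun u => u + Pi.single i 1 ∈ T1)) ∪
          (T2.filter (fun u => u + Pi.single i 1 ∈ T2))).card + (cross i).card :=
            Finset.card_union_le _ _
        _ ≤ _ := by
            have := Finset.card_union_le (T1.filter (fun u => u + Pi.single i 1 ∈ T1))
              (T2.filter (fun u => u + Pi.single i 1 ∈ T2))
            omega
    have hc0 : ∀ i : Fin d, i ≠ j → (cross i).card = 0 := by
      intro i hij
      rw [Finset.card_eq_zero, Finset.filter_eq_empty_iff]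
      intro u hu hu2
      have h3 := (Finset.mem_filter.1 hu).2
      have h4 := (Finset.mem_filter.1 hu2).2
      rw [Pi.add_apply, Pi.single_eq_of_ne (Ne.symm hij), add_zero] at h4
      exact h4 h3
    have hcs : ∑ i : Fin d, (cross i).card = (cross j).card :=
      Finset.sum_eq_single j (fun i _ hij => hc0 i hij) (fun h => absurd (Finset.mem_univ _) h)
    have hcj1 : (cross j).card ≤ T1.card := Finset.card_filter_le _ _
    have hcj2 : (cross j).card ≤ T2.card := by
      refine Finset.card_le_card_of_injOn (fun u => u + Pi.single j 1) ?_ ?_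
      · intro u hu
        exact (Finset.mem_filter.1 hu).2
      · intro a _ b _ hab
        exact add_right_cancel hab
    have hFF : FF T1.card + FF T2.card + min T1.card T2.card ≤ FF T.card := by
      rw [← hcard]
      rcases le_total T1.card T2.card with h | h
      · rw [min_eq_left h]
        exact FF_add _ _ h
      · rw [min_eq_right h]
        have := FF_add _ _ h
        rw [add_comm T1.card T2.card]
        omega
    calc ∑ i : Fin d, (T.filter (fun u => u + Pi.single i 1 ∈ T)).card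
        ≤ ∑ i : Fin d, ((T1.filter (fun u => u + Pi.single i 1 ∈ T1)).card +
          (T2.filter (fun u => u + Pi.single i 1 ∈ T2)).card + (cross i).card) :=
          Finset.sum_le_sum (fun i _ => hle i)
      _ = (∑ i : Fin d, (T1.filter (fun u => u + Pi.single i 1 ∈ T1)).card) +
          (∑ i : Fin d, (T2.filter (fun u => u + Pi.single i 1 ∈ T2)).card) +
          (cross j).card := by
          rw [Finset.sum_add_distrib, Finset.sum_add_distrib, hcs]
      _ ≤ FF T.card := by
          have hmin : (cross j).card ≤ min T1.card T2.card := le_min hcj1 hcj2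
          omega
  · have h0 : ∀ i : Fin d, (T.filter (fun u => u + Pi.single i 1 ∈ T)).card = 0 := by
      intro i
      rw [Finset.card_eq_zero, Finset.filter_eq_empty_iff]
      intro u hu hu2
      have h3 := Finset.card_le_one.1 h1 u hu _ hu2
      have h4 := congrFun h3 i
      rw [Pi.add_apply, Pi.single_eq_same] at h4
      omega
    rw [Finset.sum_eq_zero (fun i _ => h0 i)]
    exact Nat.zero_le _

theorem iso {d : ℕ} (T : Finset (Fin d → ℤ)) :
    ∑ i : Fin d, (T.filter (fun u => u + Pi.single i 1 ∈ T)).card ≤ FF T.card :=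
  iso_aux T.card T rfl



end

/-! ### bdry -/

section

theorem exists_bdry_inj {d : ℕ} : Function.Injective (fun q : (Σ _ : Fin d × Bool, (Fin d → ℤ)) =>
    ((q.2, if q.1.2 = true then q.2 + Pi.single q.1.1 1 else q.2 - Pi.single q.1.1 1) :
      (Fin d → ℤ) × (Fin d → ℤ))) := by
  rintro ⟨⟨i, s⟩, u⟩ ⟨⟨j, t⟩, v⟩ h
  simp only [Prod.mk.injEq] at h
  obtain ⟨rfl, h⟩ := h
  have hi := congrFun h i
  cases s <;> cases t <;>
    simp only [Bool.false_eq_true, if_true, if_false, Pi.add_apply, Pi.sub_apply,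
      Pi.single_apply] at hi
  · by_cases hij : i = j
    · subst hij; rfl
    · simp [hij] at hi
  · by_cases hij : i = j
    · subst hij; simp at hi; omega
    · simp [hij] at hi
  · by_cases hij : i = j
    · subst hij; simp at hi; omega
    · simp [hij] at hi
  · by_cases hij : i = j
    · subst hij; rfl
    · simp [hij] at hi

theorem exists_bdry_sym {d : ℕ} (M : Finset (Fin d → ℤ)) (i : Fin d) :
    (M.filter (fun u => u - Pi.single i 1 ∈ M)).card
      = (M.filter (fun u => u + Pi.single i 1 ∈ M)).card := by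
  refine Finset.card_bij (fun u _ => u - Pi.single i 1) ?_ ?_ ?_
  · intro u hu
    rw [Finset.mem_filter] at hu ⊢
    refine ⟨hu.2, ?_⟩
    rw [sub_add_cancel]
    exact hu.1
  · intro u _ v _ h
    exact sub_left_injective h
  · intro v hv
    rw [Finset.mem_filter] at hv
    refine ⟨v + Pi.single i 1, ?_, by rw [add_sub_cancel_right]⟩
    rw [Finset.mem_filter]
    refine ⟨hv.2, ?_⟩
    rw [add_sub_cancel_right]
    exact hv.1

theorem exists_bdry {d : ℕ} (i0 : Fin d) (S : Finset (Fin d → ℤ)) (L : ℤ) (ρ : ℕ)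
    (hρ : ρ ≤ (2 * (d - 1) * (lev i0 S L).card - 2 * FF (lev i0 S L).card)
      + ((lev i0 S (L - 1)).card - (lev i0 S L).card)) :
    ∃ D : Finset ((Fin d → ℤ) × (Fin d → ℤ)), D.card = ρ ∧
      ∀ p ∈ D, p.1 ∈ S ∧ p.2 ∉ S ∧ (lattice d).Adj p.1 p.2 ∧ p.2 i0 = L := by
  classical
  set M := lev i0 S L with hM
  set M' := lev i0 S (L - 1) with hM'
  have hMmem : ∀ v, v ∈ M ↔ v ∈ S ∧ v i0 = L := fun v => by rw [hM, lev, Finset.mem_filter]
  have hM'mem : ∀ v, v ∈ M' ↔ v ∈ S ∧ v i0 = L - 1 := fun v => by rw [hM', lev, Finset.mem_filter]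
  let X : Fin d × Bool → Finset (Fin d → ℤ) := fun p =>
    if p.1 = i0 then (if p.2 = true then M'.filter (fun u => u + Pi.single p.1 1 ∉ M) else ∅)
    else (if p.2 = true then M.filter (fun u => u + Pi.single p.1 1 ∉ M)
      else M.filter (fun u => u - Pi.single p.1 1 ∉ M))
  let f : (Σ _ : Fin d × Bool, (Fin d → ℤ)) → (Fin d → ℤ) × (Fin d → ℤ) := fun q =>
    (q.2, if q.1.2 = true then q.2 + Pi.single q.1.1 1 else q.2 - Pi.single q.1.1 1)
  have hf : Function.Injective f := exists_bdry_inj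
  let I : Finset (Σ _ : Fin d × Bool, (Fin d → ℤ)) := Finset.univ.sigma X
  have hI : I.card = ∑ i : Fin d, ((X (i, true)).card + (X (i, false)).card) := by
    rw [Finset.card_sigma, Fintype.sum_prod_type]
    simp only [Fintype.sum_bool]
  have hprop : ∀ q ∈ I, (f q).1 ∈ S ∧ (f q).2 ∉ S ∧ (lattice d).Adj (f q).1 (f q).2 ∧ (f q).2 i0 = L := by
    rintro ⟨⟨i, s⟩, u⟩ hq
    have hq' : u ∈ X (i, s) := (Finset.mem_sigma.1 hq).2
    by_cases hi : i = i0
    · subst hi
      cases s
      · simp [X] at hq'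
      · simp only [X, if_true, Finset.mem_filter, hMmem, hM'mem] at hq'
        have h1 : (u + Pi.single i 1 : Fin d → ℤ) i = L := by
          rw [Pi.add_apply, Pi.single_eq_same, hq'.1.2]; ring
        refine ⟨hq'.1.1, fun h => hq'.2 ⟨h, h1⟩, adj_add u i, h1⟩
    · have hne : i0 ≠ i := fun h => hi h.symm
      cases s
      · simp only [X, if_neg hi, Bool.false_eq_true, if_false, Finset.mem_filter, hMmem] at hq'
        have h1 : (u - Pi.single i 1 : Fin d → ℤ) i0 = L := by
          rw [Pi.sub_apply, Pi.single_eq_of_ne hne, hq'.1.2]; ring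
        refine ⟨hq'.1.1, fun h => hq'.2 ⟨h, h1⟩, adj_sub u i, h1⟩
      · simp only [X, if_neg hi, if_true, Finset.mem_filter, hMmem] at hq'
        have h1 : (u + Pi.single i 1 : Fin d → ℤ) i0 = L := by
          rw [Pi.add_apply, Pi.single_eq_of_ne hne, hq'.1.2]; ring
        refine ⟨hq'.1.1, fun h => hq'.2 ⟨h, h1⟩, adj_add u i, h1⟩
  have hcardI : ρ ≤ (I.image f).card := by
    rw [Finset.card_image_of_injective _ hf]
    refine le_trans hρ ?_
    rw [hI, ← Finset.add_sum_erase _ _ (Finset.mem_univ i0)]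
    have h0 : M'.card - M.card ≤ (X (i0, true)).card + (X (i0, false)).card := by
      have h1 : (M'.filter (fun u => u + Pi.single i0 1 ∈ M)).card ≤ M.card := by
        refine Finset.card_le_card_of_injOn (fun u => u + Pi.single i0 1) ?_ ?_
        · intro u hu
          exact (Finset.mem_filter.1 (Finset.mem_coe.1 hu)).2
        · intro u _ v _ h
          exact add_left_injective _ h
      have h2 := Finset.card_filter_add_card_filter_not (s := M')
        (fun u => u + Pi.single i0 1 ∈ M)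
      have h3 : X (i0, true) = M'.filter (fun u => u + Pi.single i0 1 ∉ M) := by
        simp [X]
      rw [h3]
      omega
    have hsum : 2 * (d - 1) * M.card ≤ ∑ i ∈ Finset.univ.erase i0, ((X (i, true)).card + (X (i, false)).card)
        + 2 * FF M.card := by
      have h1 : ∀ i ∈ Finset.univ.erase i0, ((X (i, true)).card + (X (i, false)).card)
          + 2 * (M.filter (fun u => u + Pi.single i 1 ∈ M)).card = 2 * M.card := by
        intro i hi
        have hi' : i ≠ i0 := Finset.ne_of_mem_erase hi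
        have h3 : X (i, true) = M.filter (fun u => u + Pi.single i 1 ∉ M) := by
          simp [X, hi']
        have h4 : X (i, false) = M.filter (fun u => u - Pi.single i 1 ∉ M) := by
          simp [X, hi']
        have h5 := Finset.card_filter_add_card_filter_not (s := M)
          (fun u => u + Pi.single i 1 ∈ M)
        have h6 := Finset.card_filter_add_card_filter_not (s := M)
          (fun u => u - Pi.single i 1 ∈ M)
        rw [exists_bdry_sym] at h6
        rw [h3, h4]
        omega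
      have h2 := Finset.sum_congr rfl h1
      rw [Finset.sum_add_distrib, Finset.sum_const, Finset.card_erase_of_mem (Finset.mem_univ _),
        Finset.card_univ, Fintype.card_fin, ← Finset.mul_sum, smul_eq_mul] at h2
      have h3 : ∑ i ∈ Finset.univ.erase i0, (M.filter (fun u => u + Pi.single i 1 ∈ M)).card
          ≤ FF M.card :=
        le_trans (Finset.sum_le_sum_of_subset (Finset.erase_subset _ _)) (iso M)
      have h4 : 2 * (d - 1) * M.card = (d - 1) * (2 * M.card) := by ring
      rw [h4]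
      omega
    omega
  obtain ⟨D, hDI, hD⟩ := Finset.exists_subset_card_eq hcardI
  refine ⟨D, hD, fun p hp => ?_⟩
  obtain ⟨q, hq, rfl⟩ := Finset.mem_image.1 (hDI hp)
  exact hprop q hq


end

/-! ### grow -/

section

theorem grow_card_same {d : ℕ} (i0 : Fin d) (S : Finset (Fin d → ℤ)) (v : Fin d → ℤ)
    (hv : v ∉ S) (M : ℤ) (hM : v i0 = M) :
    (lev i0 (insert v S) M).card = (lev i0 S M).card + 1 := by
  unfold lev
  rw [Finset.filter_insert, if_pos hM, Finset.card_insert_of_notMem]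
  simp [hv]

theorem grow_card_diff {d : ℕ} (i0 : Fin d) (S : Finset (Fin d → ℤ)) (v : Fin d → ℤ)
    (M : ℤ) (hM : v i0 ≠ M) :
    (lev i0 (insert v S) M).card = (lev i0 S M).card := by
  unfold lev
  rw [Finset.filter_insert, if_neg hM]

theorem grow_sum {α : Type*} (D : Finset α) (f : α → ℝ≥0∞) (c : ℝ≥0∞)
    (h : ∀ p ∈ D, f p ≤ c) : ∑ p ∈ D, f p ≤ (D.card : ℝ≥0∞) * c := by
  have := Finset.sum_le_card_nsmul D f c h
  rwa [nsmul_eq_mul] at this

theorem grow_arith (κ : ℝ≥0∞) (SC r0 r1 r2 e g0 g1 g2 g : ℕ) (hSC : 0 < SC)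
    (hpos : 0 < r0 + r1 + r2 + e)
    (hg : SC + r0 * g0 + r1 * g1 + r2 * g2 ≤ (r0 + r1 + r2 + e) * g) :
    ((r0 + r1 + r2 + e : ℕ) : ℝ≥0∞)⁻¹ * (1 + ((r0 : ℝ≥0∞) * (κ + (g0 : ℝ≥0∞) / (SC : ℝ≥0∞)) +
      (r1 : ℝ≥0∞) * (κ + (g1 : ℝ≥0∞) / (SC : ℝ≥0∞)) +
      (r2 : ℝ≥0∞) * (κ + (g2 : ℝ≥0∞) / (SC : ℝ≥0∞)) + (e : ℝ≥0∞) * κ)) ≤
      κ + (g : ℝ≥0∞) / (SC : ℝ≥0∞) := by
  have hSC0 : (SC : ℝ≥0∞) ≠ 0 := by exact_mod_cast hSC.ne'
  have hSCt : (SC : ℝ≥0∞) ≠ ⊤ := ENNReal.natCast_ne_top SC
  have hn0 : ((r0 + r1 + r2 + e : ℕ) : ℝ≥0∞) ≠ 0 := by exact_mod_cast hpos.ne'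
  have hnt : ((r0 + r1 + r2 + e : ℕ) : ℝ≥0∞) ≠ ⊤ := ENNReal.natCast_ne_top _
  have h1 : (1 : ℝ≥0∞) = (SC : ℝ≥0∞) / (SC : ℝ≥0∞) := (ENNReal.div_self hSC0 hSCt).symm
  have h2 : (1 + ((r0 : ℝ≥0∞) * (κ + (g0 : ℝ≥0∞) / (SC : ℝ≥0∞)) +
      (r1 : ℝ≥0∞) * (κ + (g1 : ℝ≥0∞) / (SC : ℝ≥0∞)) +
      (r2 : ℝ≥0∞) * (κ + (g2 : ℝ≥0∞) / (SC : ℝ≥0∞)) + (e : ℝ≥0∞) * κ)) =
      ((r0 + r1 + r2 + e : ℕ) : ℝ≥0∞) * κ +
        ((SC + r0 * g0 + r1 * g1 + r2 * g2 : ℕ) : ℝ≥0∞) / (SC : ℝ≥0∞) := by
    nth_rewrite 1 [h1]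
    simp only [div_eq_mul_inv]
    push_cast
    ring
  have h3 : ((SC + r0 * g0 + r1 * g1 + r2 * g2 : ℕ) : ℝ≥0∞) / (SC : ℝ≥0∞) ≤
      ((r0 + r1 + r2 + e : ℕ) : ℝ≥0∞) * ((g : ℝ≥0∞) / (SC : ℝ≥0∞)) := by
    rw [← mul_div_assoc]
    refine ENNReal.div_le_div_right ?_ _
    exact_mod_cast hg
  rw [h2]
  calc ((r0 + r1 + r2 + e : ℕ) : ℝ≥0∞)⁻¹ * (((r0 + r1 + r2 + e : ℕ) : ℝ≥0∞) * κ +
        ((SC + r0 * g0 + r1 * g1 + r2 * g2 : ℕ) : ℝ≥0∞) / (SC : ℝ≥0∞))
      ≤ ((r0 + r1 + r2 + e : ℕ) : ℝ≥0∞)⁻¹ * (((r0 + r1 + r2 + e : ℕ) : ℝ≥0∞) * κ +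
        ((r0 + r1 + r2 + e : ℕ) : ℝ≥0∞) * ((g : ℝ≥0∞) / (SC : ℝ≥0∞))) := by gcongr
    _ = κ + (g : ℝ≥0∞) / (SC : ℝ≥0∞) := by
        rw [← mul_add, ← mul_assoc, ENNReal.inv_mul_cancel hn0 hnt, one_mul]

theorem Bd_grow {d : ℕ} (μ : Measure (Sym2 (Fin d → ℤ) → ℝ)) [IsProbabilityMeasure μ]
    (h : Res μ) (A : Set (Fin d → ℤ)) (i0 : Fin d) (L : ℤ) (κ : ℝ≥0∞)
    (hκ : ∀ y : Fin d → ℤ, y i0 = L + 3 → ∫⁻ x, TT (lattice d) {y} A x ∂μ ≤ κ)
    (SC : ℕ) (hSC : 0 < SC) (a b e r0 r1 r2 g0 g1 g2 g : ℕ)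
    (h0 : r0 = 0 ∨ (r0 ≤ 2 * (d - 1) * a - 2 * FF a ∧ Bd μ A i0 L κ SC (a + 1) b e g0))
    (h1 : r1 = 0 ∨ (r1 ≤ (2 * (d - 1) * b - 2 * FF b) + (a - b)
      ∧ Bd μ A i0 L κ SC a (b + 1) e g1))
    (h2 : r2 = 0 ∨ (r2 ≤ (2 * (d - 1) * e - 2 * FF e) + (b - e)
      ∧ Bd μ A i0 L κ SC a b (e + 1) g2))
    (hpos : 0 < r0 + r1 + r2 + e)
    (hg : SC + r0 * g0 + r1 * g1 + r2 * g2 ≤ (r0 + r1 + r2 + e) * g) :
    Bd μ A i0 L κ SC a b e g := by
  intro S hS ha hb he
  have q0 : r0 ≤ (2 * (d - 1) * (lev i0 S L).card - 2 * FF (lev i0 S L).card)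
      + ((lev i0 S (L - 1)).card - (lev i0 S L).card) := by
    rcases h0 with h0 | ⟨h0, _⟩
    · omega
    · rw [ha]; omega
  have q1 : r1 ≤ (2 * (d - 1) * (lev i0 S (L + 1)).card - 2 * FF (lev i0 S (L + 1)).card)
      + ((lev i0 S (L + 1 - 1)).card - (lev i0 S (L + 1)).card) := by
    rcases h1 with h1 | ⟨h1, _⟩
    · omega
    · rw [show L + 1 - 1 = L by ring, ha, hb]; exact h1
  have q2 : r2 ≤ (2 * (d - 1) * (lev i0 S (L + 2)).card - 2 * FF (lev i0 S (L + 2)).card)
      + ((lev i0 S (L + 2 - 1)).card - (lev i0 S (L + 2)).card) := by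
    rcases h2 with h2 | ⟨h2, _⟩
    · omega
    · rw [show L + 2 - 1 = L + 1 by ring, hb, he]; exact h2
  have q3 : e ≤ (2 * (d - 1) * (lev i0 S (L + 3)).card - 2 * FF (lev i0 S (L + 3)).card)
      + ((lev i0 S (L + 3 - 1)).card - (lev i0 S (L + 3)).card) := by
    have hz : (lev i0 S (L + 3)).card = 0 := by
      rw [Finset.card_eq_zero]
      unfold lev
      rw [Finset.filter_eq_empty_iff]
      intro v hv h4
      have := (hS v hv).2
      omega
    rw [show L + 3 - 1 = L + 2 by ring, hz, he]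
    omega
  obtain ⟨D0, c0, p0⟩ := exists_bdry i0 S L r0 q0
  obtain ⟨D1, c1, p1⟩ := exists_bdry i0 S (L + 1) r1 q1
  obtain ⟨D2, c2, p2⟩ := exists_bdry i0 S (L + 2) r2 q2
  obtain ⟨D3, c3, p3⟩ := exists_bdry i0 S (L + 3) e q3
  have d01 : Disjoint D0 D1 := by
    rw [Finset.disjoint_left]; intro p hp hq
    have := (p0 p hp).2.2.2; have := (p1 p hq).2.2.2; omega
  have d2 : Disjoint (D0 ∪ D1) D2 := by
    rw [Finset.disjoint_left]; intro p hp hq
    have := (p2 p hq).2.2.2
    rcases Finset.mem_union.mp hp with hp | hp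
    · have := (p0 p hp).2.2.2; omega
    · have := (p1 p hp).2.2.2; omega
  have d3 : Disjoint ((D0 ∪ D1) ∪ D2) D3 := by
    rw [Finset.disjoint_left]; intro p hp hq
    have := (p3 p hq).2.2.2
    rcases Finset.mem_union.mp hp with hp | hp
    · rcases Finset.mem_union.mp hp with hp | hp
      · have := (p0 p hp).2.2.2; omega
      · have := (p1 p hp).2.2.2; omega
    · have := (p2 p hp).2.2.2; omega
  have hcard : (((D0 ∪ D1) ∪ D2) ∪ D3).card = r0 + r1 + r2 + e := by
    rw [Finset.card_union_of_disjoint d3, Finset.card_union_of_disjoint d2,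
      Finset.card_union_of_disjoint d01, c0, c1, c2, c3]
  have hne : (((D0 ∪ D1) ∪ D2) ∪ D3).Nonempty := by
    rw [← Finset.card_pos, hcard]; exact hpos
  have hrace := race μ h (lattice d) S A (((D0 ∪ D1) ∪ D2) ∪ D3) hne (by
    intro p hp
    rcases Finset.mem_union.mp hp with hp | hp
    · rcases Finset.mem_union.mp hp with hp | hp
      · rcases Finset.mem_union.mp hp with hp | hp
        · exact ⟨(p0 p hp).1, (p0 p hp).2.1, (p0 p hp).2.2.1⟩
        · exact ⟨(p1 p hp).1, (p1 p hp).2.1, (p1 p hp).2.2.1⟩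
      · exact ⟨(p2 p hp).1, (p2 p hp).2.1, (p2 p hp).2.2.1⟩
    · exact ⟨(p3 p hp).1, (p3 p hp).2.1, (p3 p hp).2.2.1⟩)
  rw [hcard, Finset.sum_union d3, Finset.sum_union d2, Finset.sum_union d01] at hrace
  refine hrace.trans (le_trans ?_ (grow_arith κ SC r0 r1 r2 e g0 g1 g2 g hSC hpos hg))
  have s0 : ∑ p ∈ D0, ∫⁻ x, TT (lattice d) (insert p.2 S) A x ∂μ ≤
      (r0 : ℝ≥0∞) * (κ + (g0 : ℝ≥0∞) / (SC : ℝ≥0∞)) := by
    rw [← c0]
    refine grow_sum _ _ _ fun p hp => ?_
    rcases h0 with h0 | ⟨_, h0⟩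
    · rw [h0, Finset.card_eq_zero] at c0
      rw [c0] at hp; simp at hp
    · obtain ⟨_, t2, _, t4⟩ := p0 p hp
      refine h0 (insert p.2 S) ?_ ?_ ?_ ?_
      · intro v hv
        rcases Finset.mem_insert.mp hv with rfl | hv
        · omega
        · exact hS v hv
      · rw [grow_card_same i0 S p.2 t2 _ t4, ha]
      · rw [grow_card_diff i0 S p.2 _ (by omega), hb]
      · rw [grow_card_diff i0 S p.2 _ (by omega), he]
  have s1 : ∑ p ∈ D1, ∫⁻ x, TT (lattice d) (insert p.2 S) A x ∂μ ≤
      (r1 : ℝ≥0∞) * (κ + (g1 : ℝ≥0∞) / (SC : ℝ≥0∞)) := by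
    rw [← c1]
    refine grow_sum _ _ _ fun p hp => ?_
    rcases h1 with h1 | ⟨_, h1⟩
    · rw [h1, Finset.card_eq_zero] at c1
      rw [c1] at hp; simp at hp
    · obtain ⟨_, t2, _, t4⟩ := p1 p hp
      refine h1 (insert p.2 S) ?_ ?_ ?_ ?_
      · intro v hv
        rcases Finset.mem_insert.mp hv with rfl | hv
        · omega
        · exact hS v hv
      · rw [grow_card_diff i0 S p.2 _ (by omega), ha]
      · rw [grow_card_same i0 S p.2 t2 _ t4, hb]
      · rw [grow_card_diff i0 S p.2 _ (by omega), he]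
  have s2 : ∑ p ∈ D2, ∫⁻ x, TT (lattice d) (insert p.2 S) A x ∂μ ≤
      (r2 : ℝ≥0∞) * (κ + (g2 : ℝ≥0∞) / (SC : ℝ≥0∞)) := by
    rw [← c2]
    refine grow_sum _ _ _ fun p hp => ?_
    rcases h2 with h2 | ⟨_, h2⟩
    · rw [h2, Finset.card_eq_zero] at c2
      rw [c2] at hp; simp at hp
    · obtain ⟨_, t2, _, t4⟩ := p2 p hp
      refine h2 (insert p.2 S) ?_ ?_ ?_ ?_
      · intro v hv
        rcases Finset.mem_insert.mp hv with rfl | hv
        · omega
        · exact hS v hv
      · rw [grow_card_diff i0 S p.2 _ (by omega), ha]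
      · rw [grow_card_diff i0 S p.2 _ (by omega), hb]
      · rw [grow_card_same i0 S p.2 t2 _ t4, he]
  have s3 : ∑ p ∈ D3, ∫⁻ x, TT (lattice d) (insert p.2 S) A x ∂μ ≤ (e : ℝ≥0∞) * κ := by
    rw [← c3]
    refine grow_sum _ _ _ fun p hp => ?_
    obtain ⟨_, _, _, t4⟩ := p3 p hp
    refine le_trans (lintegral_mono fun x => ?_) (hκ p.2 t4)
    exact TT_mono _ _ _ (by simp) _ _
  gcongr


end

/-! ### drop -/

section

theorem Bd_drop {d : ℕ} (μ : Measure (Sym2 (Fin d → ℤ) → ℝ)) [IsProbabilityMeasure μ]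
    (A : Set (Fin d → ℤ)) (i0 : Fin d) (L : ℤ) (κ : ℝ≥0∞)
    (SC : ℕ) (a b e a' b' e' g : ℕ) (ha : a' ≤ a) (hb : b' ≤ b) (he : e' ≤ e)
    (h : Bd μ A i0 L κ SC a' b' e' g) : Bd μ A i0 L κ SC a b e g := by
  intro S hS h1 h2 h3
  obtain ⟨Sa, hSa, hSa'⟩ := Finset.exists_subset_card_eq (s := lev i0 S L) (n := a')
    (by rw [h1]; exact ha)
  obtain ⟨Sb, hSb, hSb'⟩ := Finset.exists_subset_card_eq (s := lev i0 S (L + 1)) (n := b')
    (by rw [h2]; exact hb)
  obtain ⟨Se, hSe, hSe'⟩ := Finset.exists_subset_card_eq (s := lev i0 S (L + 2)) (n := e')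
    (by rw [h3]; exact he)
  have ea : ∀ v ∈ Sa, v ∈ S ∧ v i0 = L := fun v hv => Finset.mem_filter.1 (hSa hv)
  have eb : ∀ v ∈ Sb, v ∈ S ∧ v i0 = L + 1 := fun v hv => Finset.mem_filter.1 (hSb hv)
  have ee : ∀ v ∈ Se, v ∈ S ∧ v i0 = L + 2 := fun v hv => Finset.mem_filter.1 (hSe hv)
  have hmem : ∀ v, v ∈ Sa ∪ Sb ∪ Se ↔ v ∈ Sa ∨ v ∈ Sb ∨ v ∈ Se := by
    intro v
    rw [Finset.mem_union, Finset.mem_union, or_assoc]
  have hsub : Sa ∪ Sb ∪ Se ⊆ S := by
    intro v hv
    rcases (hmem v).1 hv with hv | hv | hv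
    · exact (ea v hv).1
    · exact (eb v hv).1
    · exact (ee v hv).1
  have la : lev i0 (Sa ∪ Sb ∪ Se) L = Sa := by
    ext v
    unfold lev
    rw [Finset.mem_filter, hmem]
    constructor
    · rintro ⟨hv | hv | hv, hl⟩
      · exact hv
      · have := (eb v hv).2
        omega
      · have := (ee v hv).2
        omega
    · intro hv
      exact ⟨Or.inl hv, (ea v hv).2⟩
  have lb : lev i0 (Sa ∪ Sb ∪ Se) (L + 1) = Sb := by
    ext v
    unfold lev
    rw [Finset.mem_filter, hmem]
    constructor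
    · rintro ⟨hv | hv | hv, hl⟩
      · have := (ea v hv).2
        omega
      · exact hv
      · have := (ee v hv).2
        omega
    · intro hv
      exact ⟨Or.inr (Or.inl hv), (eb v hv).2⟩
  have le' : lev i0 (Sa ∪ Sb ∪ Se) (L + 2) = Se := by
    ext v
    unfold lev
    rw [Finset.mem_filter, hmem]
    constructor
    · rintro ⟨hv | hv | hv, hl⟩
      · have := (ea v hv).2
        omega
      · have := (eb v hv).2
        omega
      · exact hv
    · intro hv
      exact ⟨Or.inr (Or.inr hv), (ee v hv).2⟩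
  have h4 := h (Sa ∪ Sb ∪ Se) (fun v hv => hS v (hsub hv)) (by rw [la]; exact hSa')
    (by rw [lb]; exact hSb') (by rw [le']; exact hSe')
  exact (lintegral_mono fun x => TT_mono (lattice d) S (Sa ∪ Sb ∪ Se) hsub A x).trans h4


end

/-! ### link -/

section

theorem link_sum_nonneg {V : Type*} (x : Sym2 V → ℝ) (hx : ∀ e, 0 < x e) (l : List (Sym2 V)) :
    0 ≤ (l.map x).sum := by
  apply List.sum_nonneg
  intro a ha
  obtain ⟨e, -, rfl⟩ := List.mem_map.1 ha
  exact (hx e).le

theorem link_walk {V : Type*} (G : SimpleGraph V) (S : Finset V) (A : Set V) (x : Sym2 V → ℝ)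
    (hx : ∀ e, 0 < x e) : ∀ (l : List V) (u : V), Good G S A u l →
      ∃ v ∈ A, ∃ p : G.Walk u v, ENNReal.ofReal (p.edges.map x).sum = cost x u l := by
  intro l
  induction l with
  | nil =>
    intro u hu
    refine ⟨u, hu, SimpleGraph.Walk.nil, ?_⟩
    simp [cost]
  | cons v l ih =>
    intro u hu
    obtain ⟨h1, -, h3⟩ := hu
    obtain ⟨w, hw, p, hp⟩ := ih v h3
    refine ⟨w, hw, SimpleGraph.Walk.cons h1 p, ?_⟩
    rw [SimpleGraph.Walk.edges_cons, List.map_cons, List.sum_cons,
      ENNReal.ofReal_add (hx _).le (link_sum_nonneg x hx _), hp]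
    rfl

theorem link {d : ℕ} (x : Sym2 (Fin d → ℤ) → ℝ) (hx : ∀ e, 0 < x e) (A : Set (Fin d → ℤ))
    (s : ℝ) (h : TT (lattice d) {0} A x < ENNReal.ofReal s) : ∃ v ∈ A, passage x 0 v ≤ s := by
  unfold TT at h
  rw [iInf_lt_iff] at h
  obtain ⟨u, h⟩ := h
  rw [iInf_lt_iff] at h
  obtain ⟨l, h⟩ := h
  rw [iInf_lt_iff] at h
  obtain ⟨⟨hu, hG⟩, h⟩ := h
  rw [Finset.mem_singleton] at hu
  subst hu
  obtain ⟨v, hv, p, hp⟩ := link_walk (lattice d) {0} A x hx l 0 hG
  refine ⟨v, hv, ?_⟩
  rw [← hp, ENNReal.ofReal_lt_ofReal_iff'] at h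
  have h1 : passage x 0 v ≤ (p.edges.map x).sum :=
    ciInf_le ⟨0, by
      rintro _ ⟨q, rfl⟩
      exact link_sum_nonneg x hx _⟩ p
  linarith [h.1]



end

/-! ### pathProb -/

section

theorem pathProb_meas {E : Type*} (l : List E) : Measurable (fun x : E → ℝ => (l.map x).sum) := by
  induction l with
  | nil => simp only [List.map_nil, List.sum_nil]; exact measurable_const
  | cons a l ih =>
    simp only [List.map_cons, List.sum_cons]
    exact (measurable_pi_apply a).add ih

theorem pathProb_measg {E : Type*} (l : List E) (lam : ℝ) :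
    Measurable (fun x : E → ℝ => ENNReal.ofReal (Real.exp (-(lam * (l.map x).sum)))) :=
  ENNReal.measurable_ofReal.comp
    (Real.measurable_exp.comp (((pathProb_meas l).const_mul lam).neg))

theorem pathProb_int {E : Type*} [DecidableEq E] (μ : Measure (E → ℝ))
    [IsProbabilityMeasure μ] (h : Res μ) (l : List E) (hl : l.Nodup) (lam : ℝ) (hlam : 0 < lam) :
    ∫⁻ x, ENNReal.ofReal (Real.exp (-(lam * (l.map x).sum))) ∂μ =
      ENNReal.ofReal ((1 / (1 + lam)) ^ l.length) := by
  induction l with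
  | nil =>
    simp
  | cons a l ih =>
    have hal : a ∉ l := (List.nodup_cons.1 hl).1
    have ih' := ih (List.nodup_cons.1 hl).2
    have hr : 0 ≤ 1 / (1 + lam) := by positivity
    rw [h a _ (pathProb_measg (a :: l) lam)]
    have h1 : ∀ x : E → ℝ, ∫⁻ s, ENNReal.ofReal (Real.exp (-(lam *
        ((a :: l).map (Function.update x a s)).sum))) ∂(expMeasure 1) =
        ENNReal.ofReal (1 / (1 + lam)) * ENNReal.ofReal (Real.exp (-(lam * (l.map x).sum))) := by
      intro x
      rw [← exp_lap lam hlam.le, ← lintegral_mul_const']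
      · refine lintegral_congr fun s => ?_
        have h2 : l.map (Function.update x a s) = l.map x := by
          refine List.map_congr_left fun b hb => ?_
          have hba : b ≠ a := by
            intro e
            rw [e] at hb
            exact hal hb
          exact Function.update_of_ne hba _ _
        rw [List.map_cons, List.sum_cons, h2, Function.update_self,
          ← ENNReal.ofReal_mul (Real.exp_pos _).le, ← Real.exp_add]
        congr 2
        ring
      · exact ENNReal.ofReal_ne_top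
    simp_rw [h1]
    rw [lintegral_const_mul' _ _ ENNReal.ofReal_ne_top, ih', ← ENNReal.ofReal_mul hr,
      List.length_cons, pow_succ']

theorem path_prob {E : Type*} [DecidableEq E] [Countable E] (μ : Measure (E → ℝ))
    [IsProbabilityMeasure μ] (h : Res μ) (l : List E) (hl : l.Nodup) (lam t : ℝ) (hlam : 0 < lam) :
    μ {x | (l.map x).sum ≤ t}
      ≤ ENNReal.ofReal (Real.exp (lam * t) * (1 / (1 + lam)) ^ l.length) := by
  have h1 := pathProb_int μ h l hl lam hlam
  have h2 := mul_meas_ge_le_lintegral₀ (pathProb_measg l lam).aemeasurable (μ := μ)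
    (ENNReal.ofReal (Real.exp (-(lam * t))))
  rw [h1] at h2
  have h3 : μ {x | (l.map x).sum ≤ t} ≤ μ {x | ENNReal.ofReal (Real.exp (-(lam * t))) ≤
      ENNReal.ofReal (Real.exp (-(lam * (l.map x).sum)))} := by
    refine measure_mono fun x hx => ?_
    refine ENNReal.ofReal_le_ofReal (Real.exp_le_exp.2 ?_)
    have hx' : (l.map x).sum ≤ t := hx
    have := mul_le_mul_of_nonneg_left hx' hlam.le
    linarith
  have h4 : ENNReal.ofReal (Real.exp (lam * t)) * ENNReal.ofReal (Real.exp (-(lam * t))) = 1 := by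
    rw [← ENNReal.ofReal_mul (Real.exp_pos _).le, ← Real.exp_add, add_neg_cancel, Real.exp_zero,
      ENNReal.ofReal_one]
  calc μ {x | (l.map x).sum ≤ t} = ENNReal.ofReal (Real.exp (lam * t)) *
        (ENNReal.ofReal (Real.exp (-(lam * t))) * μ {x | (l.map x).sum ≤ t}) := by
        rw [← mul_assoc, h4, one_mul]
    _ ≤ ENNReal.ofReal (Real.exp (lam * t)) *
        (ENNReal.ofReal (Real.exp (-(lam * t))) * μ {x | ENNReal.ofReal (Real.exp (-(lam * t))) ≤
      ENNReal.ofReal (Real.exp (-(lam * (l.map x).sum)))}) := by gcongr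
    _ ≤ ENNReal.ofReal (Real.exp (lam * t)) * ENNReal.ofReal ((1 / (1 + lam)) ^ l.length) := by
        gcongr
    _ = ENNReal.ofReal (Real.exp (lam * t) * (1 / (1 + lam)) ^ l.length) := by
        rw [ENNReal.ofReal_mul (Real.exp_pos _).le]


end

/-! ### walkCount -/

section

theorem walkCount_sum_add {d : ℕ} (u : Fin d → ℤ) (i : Fin d) :
    ∑ j, (((u + Pi.single i 1 : Fin d → ℤ) j : ℤ) : ℝ) = ∑ j, (u j : ℝ) + 1 := by
  have h : ∀ j, (((u + Pi.single i 1 : Fin d → ℤ) j : ℤ) : ℝ) =
      (u j : ℝ) + if j = i then 1 else 0 := by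
    intro j
    rw [Pi.add_apply, Pi.single_apply]
    push_cast
    rfl
  rw [Finset.sum_congr rfl fun j _ => h j, Finset.sum_add_distrib, Finset.sum_ite_eq',
    if_pos (Finset.mem_univ i)]

theorem walkCount_sum_sub {d : ℕ} (u : Fin d → ℤ) (i : Fin d) :
    ∑ j, (((u - Pi.single i 1 : Fin d → ℤ) j : ℤ) : ℝ) = ∑ j, (u j : ℝ) - 1 := by
  have h : ∀ j, (((u - Pi.single i 1 : Fin d → ℤ) j : ℤ) : ℝ) =
      (u j : ℝ) - if j = i then 1 else 0 := by
    intro j
    rw [Pi.sub_apply, Pi.single_apply]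
    push_cast
    rfl
  rw [Finset.sum_congr rfl fun j _ => h j, Finset.sum_sub_distrib, Finset.sum_ite_eq',
    if_pos (Finset.mem_univ i)]

theorem walk_count {d : ℕ} (θ : ℝ) (n : ℕ) (u v : Fin d → ℤ)
    (W : Finset ((lattice d).Walk u v)) (hW : ∀ p ∈ W, p.length = n) :
    (W.card : ℝ) ≤ Real.exp (θ * (∑ i, (u i : ℝ) - ∑ i, (v i : ℝ))) * (2 * d * Real.cosh θ) ^ n := by
  classical
  induction n generalizing u with
  | zero =>
    rw [pow_zero, mul_one]
    rcases W.eq_empty_or_nonempty with h | ⟨p, hp⟩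
    · rw [h, Finset.card_empty, Nat.cast_zero]
      exact (Real.exp_pos _).le
    · have huv : u = v := SimpleGraph.Walk.eq_of_length_eq_zero (hW p hp)
      subst huv
      have hsub : W ⊆ {SimpleGraph.Walk.nil} := by
        intro q hq
        rw [Finset.mem_singleton]
        cases q with
        | nil => rfl
        | cons h q =>
          have := hW _ hq
          rw [SimpleGraph.Walk.length_cons] at this
          omega
      have hcard := Finset.card_le_card hsub
      rw [Finset.card_singleton] at hcard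
      rw [sub_self, mul_zero, Real.exp_zero]
      exact_mod_cast hcard
  | succ n ih =>
    have hinj1 : ∀ i : Fin d, Function.Injective (fun q : (lattice d).Walk (u + Pi.single i 1) v =>
        SimpleGraph.Walk.cons (adj_add u i) q) := by
      intro i q q' h
      simpa using h
    have hinj2 : ∀ i : Fin d, Function.Injective (fun q : (lattice d).Walk (u - Pi.single i 1) v =>
        SimpleGraph.Walk.cons (adj_sub u i) q) := by
      intro i q q' h
      simpa using h
    have hsub : W ⊆ (Finset.univ.biUnion fun i : Fin d =>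
        (W.preimage (fun q : (lattice d).Walk (u + Pi.single i 1) v =>
          SimpleGraph.Walk.cons (adj_add u i) q) (hinj1 i).injOn).image
          (fun q => SimpleGraph.Walk.cons (adj_add u i) q)) ∪
        (Finset.univ.biUnion fun i : Fin d =>
        (W.preimage (fun q : (lattice d).Walk (u - Pi.single i 1) v =>
          SimpleGraph.Walk.cons (adj_sub u i) q) (hinj2 i).injOn).image
          (fun q => SimpleGraph.Walk.cons (adj_sub u i) q)) := by
      intro p hp
      cases p with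
      | nil =>
        have := hW _ hp
        rw [SimpleGraph.Walk.length_nil] at this
        omega
      | cons h q =>
        obtain ⟨i, hi | hi⟩ := adj_cases h
        · subst hi
          refine Finset.mem_union_left _ (Finset.mem_biUnion.2 ⟨i, Finset.mem_univ i, ?_⟩)
          exact Finset.mem_image.2 ⟨q, Finset.mem_preimage.2 hp, rfl⟩
        · subst hi
          refine Finset.mem_union_right _ (Finset.mem_biUnion.2 ⟨i, Finset.mem_univ i, ?_⟩)
          exact Finset.mem_image.2 ⟨q, Finset.mem_preimage.2 hp, rfl⟩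
    have hcard : W.card ≤ (∑ i : Fin d, (W.preimage
          (fun q : (lattice d).Walk (u + Pi.single i 1) v =>
          SimpleGraph.Walk.cons (adj_add u i) q) (hinj1 i).injOn).card) +
        ∑ i : Fin d, (W.preimage (fun q : (lattice d).Walk (u - Pi.single i 1) v =>
          SimpleGraph.Walk.cons (adj_sub u i) q) (hinj2 i).injOn).card := by
      refine (Finset.card_le_card hsub).trans ((Finset.card_union_le _ _).trans ?_)
      refine Nat.add_le_add ?_ ?_
      · exact Finset.card_biUnion_le.trans (Finset.sum_le_sum fun i _ => Finset.card_image_le)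
      · exact Finset.card_biUnion_le.trans (Finset.sum_le_sum fun i _ => Finset.card_image_le)
    have h1 : ∀ i : Fin d, ((W.preimage (fun q : (lattice d).Walk (u + Pi.single i 1) v =>
          SimpleGraph.Walk.cons (adj_add u i) q) (hinj1 i).injOn).card : ℝ) ≤
        Real.exp θ * (Real.exp (θ * (∑ i, (u i : ℝ) - ∑ i, (v i : ℝ))) *
          (2 * d * Real.cosh θ) ^ n) := by
      intro i
      refine (ih _ _ ?_).trans (le_of_eq ?_)
      · intro q hq
        have := hW _ (Finset.mem_preimage.1 hq)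
        rw [SimpleGraph.Walk.length_cons] at this
        omega
      · rw [walkCount_sum_add, ← mul_assoc, ← Real.exp_add]
        congr 2
        ring
    have h2 : ∀ i : Fin d, ((W.preimage (fun q : (lattice d).Walk (u - Pi.single i 1) v =>
          SimpleGraph.Walk.cons (adj_sub u i) q) (hinj2 i).injOn).card : ℝ) ≤
        Real.exp (-θ) * (Real.exp (θ * (∑ i, (u i : ℝ) - ∑ i, (v i : ℝ))) *
          (2 * d * Real.cosh θ) ^ n) := by
      intro i
      refine (ih _ _ ?_).trans (le_of_eq ?_)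
      · intro q hq
        have := hW _ (Finset.mem_preimage.1 hq)
        rw [SimpleGraph.Walk.length_cons] at this
        omega
      · rw [walkCount_sum_sub, ← mul_assoc, ← Real.exp_add]
        congr 2
        ring
    have h3 : (W.card : ℝ) ≤ (∑ i : Fin d, ((W.preimage
          (fun q : (lattice d).Walk (u + Pi.single i 1) v =>
          SimpleGraph.Walk.cons (adj_add u i) q) (hinj1 i).injOn).card : ℝ)) +
        ∑ i : Fin d, ((W.preimage (fun q : (lattice d).Walk (u - Pi.single i 1) v =>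
          SimpleGraph.Walk.cons (adj_sub u i) q) (hinj2 i).injOn).card : ℝ) := by
      exact_mod_cast hcard
    refine h3.trans ((add_le_add (Finset.sum_le_sum fun i _ => h1 i)
      (Finset.sum_le_sum fun i _ => h2 i)).trans (le_of_eq ?_))
    rw [Finset.sum_const, Finset.sum_const, Finset.card_univ, Fintype.card_fin, nsmul_eq_mul,
      nsmul_eq_mul, Real.cosh_eq, pow_succ]
    ring


end

/-! ### diag -/

section

theorem diag_finite {d : ℕ} (n : ℕ) (v : Fin d → ℤ) :
    {p : (lattice d).Walk 0 v | p.length = n}.Finite := by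
  by_contra hinf
  have hinf : {p : (lattice d).Walk 0 v | p.length = n}.Infinite := hinf
  obtain ⟨N, hN⟩ := exists_nat_gt
    (Real.exp ((0:ℝ) * (∑ i, (((0 : Fin d → ℤ) i : ℤ) : ℝ) - ∑ i, (v i : ℝ)))
      * (2 * d * Real.cosh 0) ^ n)
  obtain ⟨W, hW1, hW2⟩ := hinf.exists_subset_card_eq N
  have := walk_count 0 n 0 v W (fun p hp => hW1 hp)
  rw [hW2] at this
  linarith

theorem diag_sum_le {E : Type*} (x : E → ℝ) (hx : ∀ e, 0 < x e) (l1 l2 : List E)
    (hn : l1.Nodup) (hs : l1 ⊆ l2) : (l1.map x).sum ≤ (l2.map x).sum := by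
  obtain ⟨l, hl1, hl2⟩ := List.subperm_of_subset hn hs
  rw [← (hl1.map x).sum_eq]
  apply List.Sublist.sum_le_sum (hl2.map x)
  intro a ha
  obtain ⟨e, _, rfl⟩ := List.mem_map.1 ha
  exact (hx e).le

theorem diag_exists {d : ℕ} (x : Sym2 (Fin d → ℤ) → ℝ) (hx : ∀ e, 0 < x e) (v : Fin d → ℤ)
    (t : ℝ) (h : passage x 0 v ≤ t) :
    ∃ p : (lattice d).Walk 0 v, p.edges.Nodup ∧ (p.edges.map x).sum ≤ t + 1 := by
  have h1 : passage x 0 v < t + 1 := by linarith
  have : Nonempty ((lattice d).Walk 0 v) := walk_exists 0 v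
  obtain ⟨p, hp⟩ := exists_lt_of_ciInf_lt h1
  classical
  refine ⟨p.bypass, p.bypass_isPath.isTrail.edges_nodup, ?_⟩
  exact (diag_sum_le x hx _ _ p.bypass_isPath.isTrail.edges_nodup p.edges_bypass_subset_edges).trans hp.le

theorem diag_bound {d : ℕ} (μ : Measure (Sym2 (Fin d → ℤ) → ℝ)) [IsProbabilityMeasure μ]
    (h : Res μ) (θ lam : ℝ) (hlam : 0 < lam) (hq : 2 * d * Real.cosh θ < 1 + lam) :
    ∃ C : ℝ, 0 < C ∧ ∀ (v : Fin d → ℤ) (t : ℝ),
      μ {x | passage x 0 v ≤ t} ≤ ENNReal.ofReal (C * Real.exp (lam * t - θ * ∑ i, (v i : ℝ))) := by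
  have h1l : 0 < 1 + lam := by linarith
  have hcosh : 0 < Real.cosh θ := Real.cosh_pos θ
  set q : ℝ := (2 * d * Real.cosh θ) * (1 / (1 + lam)) with hqdef
  have hq0 : 0 ≤ q := by positivity
  have hq1 : q < 1 := by
    rw [hqdef, mul_one_div, div_lt_one h1l]; exact hq
  have h1q : 0 < 1 - q := by linarith
  refine ⟨Real.exp lam / (1 - q), by positivity, ?_⟩
  intro v t
  classical
  set P : ℕ → Finset ((lattice d).Walk 0 v) :=
    fun n => (diag_finite n v).toFinset.filter (fun p => p.edges.Nodup) with hP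
  set S : (lattice d).Walk 0 v → Set (Sym2 (Fin d → ℤ) → ℝ) :=
    fun p => {x | (p.edges.map x).sum ≤ t + 1} with hS
  have hae : ∀ᵐ x ∂μ, ∀ e, 0 < x e := res_pos μ h
  have hsub : ({x | passage x 0 v ≤ t} : Set (Sym2 (Fin d → ℤ) → ℝ)) ≤ᵐ[μ]
      (⋃ n, ⋃ p ∈ P n, S p : Set (Sym2 (Fin d → ℤ) → ℝ)) := by
    filter_upwards [hae] with x hx hxt
    obtain ⟨p, hp1, hp2⟩ := diag_exists x hx v t hxt
    show x ∈ ⋃ n, ⋃ p ∈ P n, S p
    rw [Set.mem_iUnion]
    refine ⟨p.length, ?_⟩
    rw [Set.mem_iUnion₂]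
    refine ⟨p, ?_, hp2⟩
    rw [hP, Finset.mem_filter]
    exact ⟨by simp, hp1⟩
  set E : ℝ := Real.exp (lam * (t + 1)) with hE
  set B : ℝ := Real.exp (θ * (∑ i, (((0 : Fin d → ℤ) i : ℤ) : ℝ) - ∑ i, (v i : ℝ))) with hB
  have hE0 : 0 < E := Real.exp_pos _
  have hB0 : 0 < B := Real.exp_pos _
  have hcard : ∀ n, ((P n).card : ℝ) ≤ B * (2 * d * Real.cosh θ) ^ n := by
    intro n
    apply walk_count θ n 0 v (P n)
    intro p hp
    rw [hP, Finset.mem_filter] at hp
    simpa using hp.1
  have hn : ∀ n, μ (⋃ p ∈ P n, S p) ≤ ENNReal.ofReal ((B * E) * q ^ n) := by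
    intro n
    calc μ (⋃ p ∈ P n, S p) ≤ ∑ p ∈ P n, μ (S p) := measure_biUnion_finset_le _ _
      _ ≤ ∑ p ∈ P n, ENNReal.ofReal (E * (1 / (1 + lam)) ^ n) := by
          apply Finset.sum_le_sum
          intro p hp
          rw [hP, Finset.mem_filter] at hp
          have hpl : p.length = n := by simpa using hp.1
          have := path_prob μ h p.edges hp.2 lam (t + 1) hlam
          rw [SimpleGraph.Walk.length_edges, hpl] at this
          exact this
      _ = ((P n).card : ℝ≥0∞) * ENNReal.ofReal (E * (1 / (1 + lam)) ^ n) := by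
          rw [Finset.sum_const, nsmul_eq_mul]
      _ = ENNReal.ofReal ((P n).card * (E * (1 / (1 + lam)) ^ n)) := by
          rw [ENNReal.ofReal_mul (p := ((P n).card : ℝ)) (by positivity), ENNReal.ofReal_natCast]
      _ ≤ ENNReal.ofReal ((B * E) * q ^ n) := by
          apply ENNReal.ofReal_le_ofReal
          calc ((P n).card : ℝ) * (E * (1 / (1 + lam)) ^ n)
              ≤ (B * (2 * d * Real.cosh θ) ^ n) * (E * (1 / (1 + lam)) ^ n) := by
                apply mul_le_mul_of_nonneg_right (hcard n) (by positivity)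
            _ = (B * E) * q ^ n := by rw [hqdef, mul_pow]; ring
  calc μ {x | passage x 0 v ≤ t} ≤ μ (⋃ n, ⋃ p ∈ P n, S p) := measure_mono_ae hsub
    _ ≤ ∑' n, μ (⋃ p ∈ P n, S p) := measure_iUnion_le _
    _ ≤ ∑' n, ENNReal.ofReal ((B * E) * q ^ n) := ENNReal.tsum_le_tsum hn
    _ = ENNReal.ofReal (∑' n, (B * E) * q ^ n) := by
        rw [ENNReal.ofReal_tsum_of_nonneg]
        · intro n; positivity
        · exact (summable_geometric_of_lt_one hq0 hq1).mul_left _
    _ = ENNReal.ofReal (Real.exp lam / (1 - q) * Real.exp (lam * t - θ * ∑ i, (v i : ℝ))) := by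
        congr 1
        rw [tsum_mul_left, tsum_geometric_of_lt_one hq0 hq1]
        have : B * E = Real.exp lam * Real.exp (lam * t - θ * ∑ i, (v i : ℝ)) := by
          rw [hB, hE, ← Real.exp_add, ← Real.exp_add]
          congr 1
          simp
          ring
        rw [this]
        field_simp


end

/-! ### shapeDiag -/

section

open scoped Pointwise in
theorem shapeDiag_aux {d : ℕ} (A : Set (Fin d → ℤ)) (r ε s : ℝ)
    (hε1 : ε < 1) (hs : 0 < s) (N : ℕ)
    (hN : N * Real.sqrt d ≤ s * ((1 - ε) * r))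
    (h1 : (1 - ε) • Metric.closedBall (0 : EuclideanSpace ℝ (Fin d)) r ⊆ s⁻¹ • fat A) :
    (fun _ => (N : ℤ)) ∈ A := by
  have h1e : 0 < 1 - ε := by linarith
  set q : EuclideanSpace ℝ (Fin d) := WithLp.toLp 2 (fun _ => (N : ℝ)) with hq
  have hqn : ‖q‖ = N * Real.sqrt d := by
    rw [EuclideanSpace.norm_eq]
    simp only [hq, Real.norm_eq_abs, sq_abs, Finset.sum_const, Finset.card_univ,
      Fintype.card_fin, nsmul_eq_mul]
    rw [Real.sqrt_mul (Nat.cast_nonneg d), Real.sqrt_sq (Nat.cast_nonneg N), mul_comm]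
  have h2 : s⁻¹ • q ∈ (1 - ε) • Metric.closedBall (0 : EuclideanSpace ℝ (Fin d)) r := by
    refine ⟨(1 - ε)⁻¹ • (s⁻¹ • q), ?_, ?_⟩
    · rw [mem_closedBall_zero_iff, norm_smul, norm_smul, hqn, Real.norm_eq_abs, Real.norm_eq_abs,
        abs_of_pos (inv_pos.2 h1e), abs_of_pos (inv_pos.2 hs), inv_mul_le_iff₀ h1e,
        inv_mul_le_iff₀ hs]
      exact hN
    · show (1 - ε) • ((1 - ε)⁻¹ • (s⁻¹ • q)) = s⁻¹ • q
      rw [smul_inv_smul₀ h1e.ne']
  obtain ⟨z, hz, hzq⟩ := h1 h2
  have hzq' : z = q := by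
    have h3 : s⁻¹ • z = s⁻¹ • q := hzq
    have h4 := congrArg (fun w => s • w) h3
    simpa [smul_inv_smul₀ hs.ne'] using h4
  obtain ⟨v, hv, hvz⟩ := hz
  have hvN : v = fun _ => (N : ℤ) := by
    funext i
    have h3 := hvz i
    rw [hzq'] at h3
    have h4 : q i = (N : ℝ) := by simp [hq]
    rw [h4] at h3
    have h5 : |((N : ℤ) - v i : ℤ)| < 1 := by
      have : (|((N : ℤ) - v i : ℤ)| : ℝ) < 1 := by
        push_cast
        linarith
      exact_mod_cast this
    have h6 : (N : ℤ) - v i = 0 := Int.abs_lt_one_iff.1 h5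
    linarith
  rw [← hvN]
  exact hv

theorem shape_diag {d : ℕ} (hd : 0 < d) (x : Sym2 (Fin d → ℤ) → ℝ) (r ε t s : ℝ) (hr : 0 < r)
    (hε : 0 < ε) (hε1 : ε < 1) (hs : 0 < s) (hts : t ≤ s) (N : ℕ)
    (hN : N * Real.sqrt d ≤ s * ((1 - ε) * r))
    (hx : x ∈ shapeEvent (Metric.closedBall (0 : EuclideanSpace ℝ (Fin d)) r) ε t) :
    passage x 0 (fun _ => (N : ℤ)) ≤ s := by
  exact shapeDiag_aux (reached x s) r ε s hε1 hs N hN (hx s hts).1


end

/-! ### shapeAxis -/

section

theorem shape_axis {d : ℕ} (x : Sym2 (Fin d → ℤ) → ℝ) (r ε t s : ℝ) (hr : 0 < r)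
    (hε : 0 < ε) (hs : 0 < s) (hts : t ≤ s) (v : Fin d → ℤ) (i0 : Fin d)
    (hv : passage x 0 v ≤ s)
    (hx : x ∈ shapeEvent (Metric.closedBall (0 : EuclideanSpace ℝ (Fin d)) r) ε t) :
    (v i0 : ℝ) ≤ s * ((1 + ε) * r) := by
  set z : EuclideanSpace ℝ (Fin d) := WithLp.toLp 2 (fun i => (v i : ℝ)) with hz
  have hzf : z ∈ fat (reached x s) := by
    refine ⟨v, hv, fun i => ?_⟩
    simp [hz]
  have h2 := (hx s hts).2 (Set.smul_mem_smul_set (a := s⁻¹) hzf)
  obtain ⟨y, hy, hyz⟩ := Set.mem_smul_set.1 h2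
  have hyn : ‖y‖ ≤ r := by simpa using hy
  have h3 : z = s • ((1 + ε) • y) := by
    rw [hyz, smul_smul, mul_inv_cancel₀ hs.ne', one_smul]
  have h4 : ‖z‖ ≤ s * ((1 + ε) * r) := by
    rw [h3, norm_smul, norm_smul, Real.norm_of_nonneg hs.le, Real.norm_of_nonneg (by linarith)]
    gcongr
  have h5 : ‖z i0‖ ≤ ‖z‖ := PiLp.norm_apply_le z i0
  have h6 : z i0 = (v i0 : ℝ) := by simp [hz]
  rw [h6] at h5
  exact (le_abs_self _).trans (h5.trans h4)


end

/-! ### diagFinal -/

section

theorem diag_final {d : ℕ} (hd : 0 < d) (μ : Measure (Sym2 (Fin d → ℤ) → ℝ))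
    [IsProbabilityMeasure μ] (h : Res μ) (θ lam : ℝ) (hθ : 0 < θ) (hlam : 0 < lam)
    (hq : 2 * d * Real.cosh θ < 1 + lam) (r ε : ℝ) (hr : 0 < r) (hε : 0 < ε) (hε1 : ε < 1)
    (hT : Tendsto (fun t : ℝ =>
      μ (shapeEvent (Metric.closedBall (0 : EuclideanSpace ℝ (Fin d)) r) ε t)) atTop (𝓝 1)) :
    θ * Real.sqrt d * ((1 - ε) * r) ≤ lam := by
  by_contra hcon
  rw [not_le] at hcon
  obtain ⟨C, hC, hb⟩ := diag_bound μ h θ lam hlam hq
  obtain ⟨R, hR⟩ : ∃ R : ℝ, R = (1 - ε) * r := ⟨_, rfl⟩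
  have hRpos : 0 < R := by
    rw [hR]
    exact mul_pos (by linarith) hr
  have hdr : (0:ℝ) < d := by exact_mod_cast hd
  have hDpos : 0 < Real.sqrt d := Real.sqrt_pos.mpr hdr
  have hDD : Real.sqrt d * Real.sqrt d = d := Real.mul_self_sqrt hdr.le
  rw [← hR] at hcon
  obtain ⟨c, hc⟩ : ∃ c : ℝ, c = θ * d - lam * Real.sqrt d / R := ⟨_, rfl⟩
  have hcpos : 0 < c := by
    rw [hc, sub_pos, div_lt_iff₀ hRpos]
    calc lam * Real.sqrt d < θ * Real.sqrt d * R * Real.sqrt d :=
          mul_lt_mul_of_pos_right hcon hDpos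
      _ = θ * (Real.sqrt d * Real.sqrt d) * R := by ring
      _ = θ * d * R := by rw [hDD]
  have hzero : ∀ t : ℝ,
      μ (shapeEvent (Metric.closedBall (0 : EuclideanSpace ℝ (Fin d)) r) ε t) ≤ 0 := by
    intro t
    have hlim : Tendsto (fun N : ℕ => ENNReal.ofReal (C * Real.exp (-c * N))) atTop (𝓝 0) := by
      have h1 : Tendsto (fun N : ℕ => C * Real.exp (-c * N)) atTop (𝓝 (C * 0)) := by
        refine Tendsto.const_mul _ ?_
        refine Real.tendsto_exp_atBot.comp ?_
        exact (tendsto_natCast_atTop_atTop.const_mul_atTop_of_neg (by linarith))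
      have h2 := ENNReal.tendsto_ofReal h1
      rwa [mul_zero, ENNReal.ofReal_zero] at h2
    refine ge_of_tendsto hlim ?_
    filter_upwards [eventually_ge_atTop 1, eventually_ge_atTop ⌈t * R / Real.sqrt d⌉₊]
      with N hN1 hN2
    have hN1' : (1:ℝ) ≤ N := by exact_mod_cast hN1
    have hN0 : (0:ℝ) < N := by linarith
    have hN3 : t * R / Real.sqrt d ≤ N := le_trans (Nat.le_ceil _) (by exact_mod_cast hN2)
    have hs : 0 < N * Real.sqrt d / R := by positivity
    have hts : t ≤ N * Real.sqrt d / R := by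
      rw [le_div_iff₀ hRpos]
      rw [div_le_iff₀ hDpos] at hN3
      exact hN3
    have hNs : N * Real.sqrt d ≤ N * Real.sqrt d / R * ((1 - ε) * r) := by
      rw [← hR, div_mul_cancel₀ _ hRpos.ne']
    calc μ (shapeEvent (Metric.closedBall (0 : EuclideanSpace ℝ (Fin d)) r) ε t)
        ≤ μ {x | passage x 0 (fun _ => (N:ℤ)) ≤ N * Real.sqrt d / R} := by
          refine measure_mono fun x hx => ?_
          exact shape_diag hd x r ε t _ hr hε hε1 hs hts N hNs hx
      _ ≤ ENNReal.ofReal (C * Real.exp (lam * (N * Real.sqrt d / R) -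
            θ * ∑ i : Fin d, (((fun _ => (N:ℤ)) i : ℤ) : ℝ))) := hb _ _
      _ = ENNReal.ofReal (C * Real.exp (-c * N)) := by
          congr 3
          rw [hc]
          simp only [Finset.sum_const, Finset.card_univ, Fintype.card_fin, nsmul_eq_mul,
            Int.cast_natCast]
          ring
  have h9 := le_of_tendsto' hT hzero
  exact absurd h9 (by simp)


end

/-! ### axisFinal -/

section

theorem axisFinal_bound {d : ℕ} (μ : Measure (Sym2 (Fin d → ℤ) → ℝ))
    [IsProbabilityMeasure μ] (h : Res μ) (i0 : Fin d) (b : ℝ) (hb : 0 < b)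
    (hE : ∀ k : ℕ, ∫⁻ x, TT (lattice d) {0} {v | (3 * k : ℤ) ≤ v i0} x ∂μ
      ≤ ENNReal.ofReal (k * b))
    (r ε : ℝ) (hr : 0 < r) (hε : 0 < ε) (hcon : (1 + ε) * b * ((1 + ε) * r) < 3) (t : ℝ) :
    μ (shapeEvent (Metric.closedBall (0 : EuclideanSpace ℝ (Fin d)) r) ε t) ≤
      ENNReal.ofReal (1 / (1 + ε)) := by
  have hc : 0 < (1 + ε) * b := by positivity
  obtain ⟨k0, hk0⟩ := exists_nat_ge (t / ((1 + ε) * b))
  set k : ℕ := k0 + 1 with hk
  have hk1 : (0 : ℝ) < k := by rw [hk]; positivity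
  set s : ℝ := (1 + ε) * (k * b) with hs
  have hspos : 0 < s := by rw [hs]; positivity
  have hts : t ≤ s := by
    have h1 : t ≤ k0 * ((1 + ε) * b) := by
      rwa [div_le_iff₀ hc] at hk0
    have h2 : (k0 : ℝ) * ((1 + ε) * b) ≤ s := by
      rw [hs, hk]
      push_cast
      nlinarith
    linarith
  have h3 : μ (shapeEvent (Metric.closedBall (0 : EuclideanSpace ℝ (Fin d)) r) ε t) ≤
      μ {x | ENNReal.ofReal s ≤ TT (lattice d) {0} {v | (3 * k : ℤ) ≤ v i0} x} := by
    apply measure_mono_ae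
    filter_upwards [res_pos μ h] with x hx hxs
    by_contra hlt
    have hlt' : TT (lattice d) {0} {v | (3 * k : ℤ) ≤ v i0} x < ENNReal.ofReal s := not_le.1 hlt
    obtain ⟨v, hv, hpv⟩ := link x hx _ s hlt'
    have h4 := shape_axis x r ε t s hr hε hspos hts v i0 hpv hxs
    have hv' : ((3 * k : ℤ) : ℝ) ≤ (v i0 : ℝ) := by exact_mod_cast hv
    push_cast at hv'
    have h5 : s * ((1 + ε) * r) = k * ((1 + ε) * b * ((1 + ε) * r)) := by rw [hs]; ring
    rw [h5] at h4
    nlinarith
  refine h3.trans ?_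
  have h6 := meas_ge_le_lintegral_div (μ := μ)
    (f := fun x => TT (lattice d) {0} {v | (3 * k : ℤ) ≤ v i0} x)
    (measurable_TT (lattice d) {0} {v | (3 * k : ℤ) ≤ v i0}).aemeasurable
    (ε := ENNReal.ofReal s) (by simpa using hspos) ENNReal.ofReal_ne_top
  refine h6.trans ?_
  calc (∫⁻ x, TT (lattice d) {0} {v | (3 * k : ℤ) ≤ v i0} x ∂μ) / ENNReal.ofReal s
      ≤ ENNReal.ofReal (k * b) / ENNReal.ofReal s := ENNReal.div_le_div_right (hE k) _
    _ = ENNReal.ofReal (k * b / s) := (ENNReal.ofReal_div_of_pos hspos).symm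
    _ = ENNReal.ofReal (1 / (1 + ε)) := by
        congr 1
        rw [hs]
        have : (k : ℝ) * b ≠ 0 := by positivity
        field_simp

theorem axis_final {d : ℕ} (μ : Measure (Sym2 (Fin d → ℤ) → ℝ))
    [IsProbabilityMeasure μ] (h : Res μ) (i0 : Fin d) (b : ℝ) (hb : 0 < b)
    (hE : ∀ k : ℕ, ∫⁻ x, TT (lattice d) {0} {v | (3 * k : ℤ) ≤ v i0} x ∂μ
      ≤ ENNReal.ofReal (k * b))
    (r ε : ℝ) (hr : 0 < r) (hε : 0 < ε)
    (hT : Tendsto (fun t : ℝ =>
      μ (shapeEvent (Metric.closedBall (0 : EuclideanSpace ℝ (Fin d)) r) ε t)) atTop (𝓝 1)) :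
    3 ≤ (1 + ε) * b * ((1 + ε) * r) := by
  by_contra hcon
  have h1 : (1 : ℝ≥0∞) ≤ ENNReal.ofReal (1 / (1 + ε)) :=
    le_of_tendsto hT (Filter.Eventually.of_forall fun t =>
      axisFinal_bound μ h i0 b hb hE r ε hr hε (not_le.1 hcon) t)
  rw [ENNReal.one_le_ofReal] at h1
  have h2 : 1 / (1 + ε) < 1 := by
    rw [div_lt_one (by positivity)]
    linarith
  linarith


end

/-! ### stage -/

section

theorem stage {d : ℕ} (μ : Measure (Sym2 (Fin d → ℤ) → ℝ)) [IsProbabilityMeasure μ]
    (i0 : Fin d) (SC g : ℕ) (hSC : 0 < SC)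
    (hBd : ∀ (A : Set (Fin d → ℤ)) (L : ℤ) (κ : ℝ≥0∞),
      (∀ y : Fin d → ℤ, y i0 = L + 3 → ∫⁻ x, TT (lattice d) {y} A x ∂μ ≤ κ) →
      Bd μ A i0 L κ SC 1 0 0 g) (k : ℕ) :
    ∫⁻ x, TT (lattice d) {0} {v | (3 * k : ℤ) ≤ v i0} x ∂μ
      ≤ ENNReal.ofReal (k * ((g : ℝ) / SC)) := by
  have claim : ∀ j : ℕ, ∀ y : Fin d → ℤ, y i0 = 3 * (k : ℤ) - 3 * (j : ℤ) →
      ∫⁻ x, TT (lattice d) {y} {v | (3 * k : ℤ) ≤ v i0} x ∂μ
        ≤ ENNReal.ofReal (j * ((g : ℝ) / SC)) := by
    intro j
    induction j with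
    | zero =>
      intro y hy
      have h : ∀ x, TT (lattice d) {y} {v | (3 * k : ℤ) ≤ v i0} x = 0 := by
        intro x
        refine TT_zero (lattice d) {y} _ x (u := y) (Finset.mem_singleton_self y) ?_
        show (3 * k : ℤ) ≤ y i0
        rw [hy]
        simp
      simp [h]
    | succ j ih =>
      intro y hy
      have h1 := hBd {v | (3 * k : ℤ) ≤ v i0} (y i0) (ENNReal.ofReal (j * ((g : ℝ) / SC)))
        (fun z hz => ih z (by rw [hz, hy]; push_cast; ring))
      have h2 := h1 {y} (by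
          intro v hv
          rw [Finset.mem_singleton.1 hv]
          exact ⟨le_refl _, by linarith⟩)
        (by
          unfold lev
          rw [Finset.filter_singleton, if_pos rfl, Finset.card_singleton])
        (by
          unfold lev
          rw [Finset.filter_singleton, if_neg (by omega), Finset.card_empty])
        (by
          unfold lev
          rw [Finset.filter_singleton, if_neg (by omega), Finset.card_empty])
      refine h2.trans (le_of_eq ?_)
      have hSC' : (0 : ℝ) < SC := by exact_mod_cast hSC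
      have e : (g : ℝ≥0∞) / (SC : ℝ≥0∞) = ENNReal.ofReal ((g : ℝ) / SC) := by
        rw [ENNReal.ofReal_div_of_pos hSC', ENNReal.ofReal_natCast, ENNReal.ofReal_natCast]
      rw [e, ← ENNReal.ofReal_add (by positivity) (by positivity)]
      congr 1
      push_cast
      ring
  exact claim k 0 (by simp)


end

end Pool.Agent.Helper52.Eden
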